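import Pool.Agent.Work.MP_552024_lc.EE.Stmts

set_option autoImplicit false

/-! Item A of block EE: `K` has no zeros. -/

namespace Pool.Agent.Work.MP_552024_lc.EE

open Pool.Agent.MP552024 Pool.Agent.Work.MP_552024_lc.PLS

namespace IA

/-- the formula -/
def QA (K : OG) (_ : Unit → K.K) (x : K.K) : Prop := 0 ≤ x ∧ ∀ a : K.K, 0 ≤ a → Inc a x

theorem dfn_QA :
    Dfn (fun K (v : Unit ⊕ Unit → K.K) => QA K (fun a => v (Sum.inl a)) (v (Sum.inr ()))) := by
  unfold QA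
  exact Dfn.and (Dfn.le DT.zero (DT.var _))
    (Dfn.all (Q := fun K (v : Unit ⊕ Unit → K.K) a => 0 ≤ a → Inc a (v (Sum.inr ())))
      (Dfn.imp (Dfn.le DT.zero (DT.var _)) (Dfn.inc (DT.var _) (DT.var _))))

end IA

theorem IA.LP_zero {ι : Type} {F : (ι → ℝ) → ℝ} (hF : F ∈ LP ι) : F 0 = 0 := by
  have h := LP_hom hF 0 le_rfl 0
  have h1 : (fun i => (0 : ℝ) * (0 : ι → ℝ) i) = 0 := by
    funext i
    simp
  rw [h1, zero_mul] at h
  exact h

open IA in
theorem pr_A : StA := by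
  intro H _ _ _ M I c T hT hTV q hq hK
  have hlin : S_linall := prfB9 prfB7
  -- zero is in T
  have h0T : (0 : H) ∈ T := by
    obtain ⟨x, hx, hxe⟩ := hT.sur 0 (fun S _ h0 _ => h0)
    have : x = 0 := M.chart.inj x fun z hz => by rw [hxe z hz]; rfl
    rw [← this]
    exact hx
  -- the sum of the hats
  obtain ⟨u, hu⟩ := M.exists_lin (fun _ => 1)
  have hu0 : 0 ≤ u := hu.nonneg' (fun _ => zero_le_one)
  have hzero : ∀ p ∈ Zset M u, p = 0 := by
    intro p hp
    have h1 := hu (castR p) hp.1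
    rw [hp.2] at h1
    have h2 : ∑ i, castR p i = 0 := by
      have h3 : ∑ i, (((1 : ℤ) : ℝ) * castR p i) = 0 := h1.symm
      simpa using h3
    have h4 := (Finset.sum_eq_zero_iff_of_nonneg (fun i _ => hp.1.1 i)).1 h2
    funext i
    have h5 : ((p i : ℚ) : ℝ) = 0 := h4 i (Finset.mem_univ i)
    exact_mod_cast h5
  have hcast0 : castR (0 : M.V → ℚ) = 0 := by
    funext i
    simp [castR]
  have hev0 : ∀ a : H, ∀ z ∈ M.Δ.Z, z = 0 → M.ev a z = 0 := by
    intro a z hz hz0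
    obtain ⟨F, hF, hFe⟩ := M.chart.mem a
    rw [hFe z hz, hz0]
    exact LP_zero hF
  -- the property holds in H
  have hex : ∃ x : H, QA ⟨H⟩ (fun _ => (0 : H)) x := by
    refine ⟨u, hu0, fun a ha => ?_⟩
    refine (Zset_le_iff hlin M ha hu0).1 ?_
    intro p hp
    have hp0 := hzero p hp
    refine ⟨hp.1, hev0 a _ hp.1 ?_⟩
    rw [hp0]
    exact hcast0
  obtain ⟨x, hxT, hx0, hxa⟩ := hTV QA dfn_QA 0 h0T hex
  obtain ⟨F, hF, hFe⟩ := hT.mem x hxT
  have hinc : Zset M x ⊆ Zset M u := (Zset_le_iff hlin M hu0 hx0).2 (hxa u hu0)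
  have hKR : KR c (castR q) = 0 := by
    funext i
    have h1 := congrFun hK i
    unfold KQ at h1
    unfold KR castR
    have h2 : ((∑ v, (c i v : ℚ) * q v : ℚ) : ℝ) = 0 := by
      rw [h1]
      simp
    push_cast at h2
    exact h2
  have hxq : M.ev x (castR q) = 0 := by
    rw [hFe _ hq, hKR]
    exact LP_zero hF
  exact hzero q (hinc ⟨hq, hxq⟩)

end Pool.Agent.Work.MP_552024_lc.EE
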