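import Pool.Agent.Work.MP_552024_lc.EE.Stmts

set_option autoImplicit false

namespace Pool.Agent.Work.MP_552024_lc.EE

open Pool.Agent.MP552024 Pool.Agent.Work.MP_552024_lc.PLS

namespace IAlg

variable {S I : Type} [Fintype S] [Fintype I]

/-- the map with the columns `w u` -/
def phi (w : S → I → ℤ) : (S → ℤ) →ₗ[ℤ] (I → ℤ) where
  toFun n := fun i => ∑ u, n u * w u i
  map_add' a b := by
    funext i
    simp only [Pi.add_apply, add_mul, Finset.sum_add_distrib]
  map_smul' m a := by
    funext i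
    simp only [Pi.smul_apply, smul_eq_mul, RingHom.id_apply, Finset.mul_sum, mul_assoc]

omit [Fintype I] in
theorem phi_apply (w : S → I → ℤ) (n : S → ℤ) (i : I) : phi w n i = ∑ u, n u * w u i := rfl

theorem inj (w : S → I → ℤ)
    (h : ∀ r : S → ℚ, (∀ i, ∃ k : ℤ, ∑ u, r u * (w u i : ℚ) = k) → ∀ u, ∃ k : ℤ, r u = k) :
    Function.Injective (phi w) := by
  rw [← LinearMap.ker_eq_bot, LinearMap.ker_eq_bot']
  intro n hn
  funext u
  by_contra hu
  simp only [Pi.zero_apply] at hu
  have hu' : (n u : ℚ) ≠ 0 := by exact_mod_cast hu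
  obtain ⟨k, hk⟩ := h (fun v => (1 / (2 * (n u : ℚ))) * n v) (fun i => ⟨0, by
    have h1 : ∑ v, n v * w v i = 0 := by
      rw [← phi_apply, hn]; rfl
    have h2 : ∑ v, (n v : ℚ) * (w v i : ℚ) = 0 := by exact_mod_cast h1
    simp only [mul_assoc]
    rw [← Finset.mul_sum, h2]
    simp⟩) u
  have h3 : (1 : ℚ) = 2 * k := by
    rw [← hk]
    field_simp
  have h4 : (1 : ℤ) = 2 * k := by exact_mod_cast h3
  omega

theorem tf (w : S → I → ℤ)
    (h : ∀ r : S → ℚ, (∀ i, ∃ k : ℤ, ∑ u, r u * (w u i : ℚ) = k) → ∀ u, ∃ k : ℤ, r u = k)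
    (m : ℤ) (hm : m ≠ 0) (y : I → ℤ) (hy : m • y ∈ LinearMap.range (phi w)) :
    y ∈ LinearMap.range (phi w) := by
  obtain ⟨n, hn⟩ := hy
  have hm' : (m : ℚ) ≠ 0 := by exact_mod_cast hm
  have h1 : ∀ i, ∑ u, ((n u : ℚ) / m) * (w u i : ℚ) = y i := by
    intro i
    have h2 : ∑ u, n u * w u i = m * y i := by
      rw [← phi_apply, hn]; rfl
    have h3 : ∑ u, (n u : ℚ) * (w u i : ℚ) = m * y i := by exact_mod_cast h2
    have h4 : ∑ u, ((n u : ℚ) / m) * (w u i : ℚ) = (∑ u, (n u : ℚ) * (w u i : ℚ)) / m := by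
      rw [Finset.sum_div]
      refine Finset.sum_congr rfl fun u _ => ?_
      ring
    rw [h4, h3]
    field_simp
  choose k hk using h (fun u => (n u : ℚ) / m) (fun i => ⟨y i, h1 i⟩)
  refine ⟨k, ?_⟩
  funext i
  rw [phi_apply]
  have h5 := h1 i
  simp only [hk] at h5
  exact_mod_cast h5

end IAlg

theorem pr_Alg : StAlg := by
  classical
  intro S I _ _ w h
  set φ := IAlg.phi w with hφ
  have hinj : Function.Injective φ := IAlg.inj w h
  have htf : Module.IsTorsionFree ℤ ((I → ℤ) ⧸ LinearMap.range φ) := by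
    rw [Module.isTorsionFree_iff_smul_eq_zero]
    intro m x hmx
    by_cases hm : m = 0
    · exact Or.inl hm
    · right
      obtain ⟨y, rfl⟩ := Submodule.mkQ_surjective (LinearMap.range φ) x
      rw [← map_smul, Submodule.mkQ_apply, Submodule.Quotient.mk_eq_zero] at hmx
      rw [Submodule.mkQ_apply, Submodule.Quotient.mk_eq_zero]
      exact IAlg.tf w h m hm y hmx
  have hfree : Module.Free ℤ ((I → ℤ) ⧸ LinearMap.range φ) := inferInstance
  obtain ⟨sec, hsec⟩ := Module.projective_lifting_property (LinearMap.range φ).mkQ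
    LinearMap.id (Submodule.mkQ_surjective _)
  let e := LinearEquiv.ofInjective φ hinj
  have hmem : ∀ y : I → ℤ, y - sec ((LinearMap.range φ).mkQ y) ∈ LinearMap.range φ := by
    intro y
    have h1 := LinearMap.congr_fun hsec ((LinearMap.range φ).mkQ y)
    simp only [LinearMap.comp_apply, LinearMap.id_apply] at h1
    rw [← Submodule.Quotient.mk_eq_zero, ← Submodule.mkQ_apply, map_sub, h1, sub_self]
  let ψ : (I → ℤ) →ₗ[ℤ] (S → ℤ) := e.symm.toLinearMap ∘ₗ
    LinearMap.codRestrict (LinearMap.range φ)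
      (LinearMap.id - sec ∘ₗ (LinearMap.range φ).mkQ) hmem
  have hψ : ∀ n, ψ (φ n) = n := by
    intro n
    have h1 : (LinearMap.range φ).mkQ (φ n) = 0 := by
      rw [Submodule.mkQ_apply, Submodule.Quotient.mk_eq_zero]
      exact ⟨n, rfl⟩
    have h2 : LinearMap.codRestrict (LinearMap.range φ)
      (LinearMap.id - sec ∘ₗ (LinearMap.range φ).mkQ) hmem (φ n) = e n := by
      apply Subtype.ext
      simp only [LinearMap.codRestrict_apply, LinearMap.sub_apply, LinearMap.id_apply,
        LinearMap.comp_apply, h1, map_zero, sub_zero]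
      rfl
    change e.symm (LinearMap.codRestrict (LinearMap.range φ)
      (LinearMap.id - sec ∘ₗ (LinearMap.range φ).mkQ) hmem (φ n)) = n
    rw [h2, LinearEquiv.symm_apply_apply]
  have hR : ∀ u v, ∑ i, ψ (Pi.single i 1) u * w v i = if u = v then 1 else 0 := by
    intro u v
    have h1 : φ (Pi.single v 1) = w v := by
      funext i
      rw [hφ, IAlg.phi_apply]
      simp [Pi.single_apply]
    have h2 : ψ (w v) = Pi.single v 1 := by rw [← h1, hψ]
    have h3 : w v = ∑ i, w v i • (Pi.single i 1 : I → ℤ) := by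
      funext j
      simp [Finset.sum_apply, Pi.single_apply]
    have h4 : ψ (w v) u = ∑ i, ψ (Pi.single i 1) u * w v i := by
      conv_lhs => rw [h3]
      rw [map_sum, Finset.sum_apply]
      refine Finset.sum_congr rfl fun i _ => ?_
      rw [map_smul, Pi.smul_apply, smul_eq_mul, mul_comm]
    rw [← h4, h2, Pi.single_apply]
  refine ⟨fun u i => ψ (Pi.single i 1) u, fun u => ?_, fun u v huv => ?_⟩
  · rw [hR u u, if_pos rfl]
  · rw [hR u v, if_neg huv]

end Pool.Agent.Work.MP_552024_lc.EE
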