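import Pool.Agent.Work.MP_552024_lc.EE.Stmts

set_option autoImplicit false

/-!
# Item Arc: zero sets and the archimedean order
-/

namespace Pool.Agent.Work.MP_552024_lc.EE

open Pool.Agent.MP552024 Pool.Agent.Work.MP_552024_lc.PLS

theorem pr_Arc : StArc := by
  intro H _ _ _ M a b ha hb hZ
  have hlin : S_linall := prfB9 prfB7
  have hI : Inc a b := (Zset_le_iff hlin M ha hb).1 hZ
  obtain ⟨N, -, hN⟩ := hlin H M Bool (fun x => if x then a else b)
  obtain ⟨ca, hca⟩ := hN true
  obtain ⟨cb, hcb⟩ := hN false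
  simp only [if_true] at hca
  simp only [Bool.false_eq_true, if_false] at hcb
  have h0 := (prfD2a (prfD1 hlin) H N a b ca cb hca hcb ha hb).1 hI
  have hk : ∀ m : ℕ, N.Lin (m • b) (fun i => (m : ℤ) * cb i) := by
    intro m
    induction m with
    | zero =>
      have h1 := N.lin_zero
      rw [zero_smul]
      intro z hz
      rw [h1 z hz]
      simp
    | succ m ih =>
      have h1 := ih.add hcb
      rw [succ_nsmul]
      intro z hz
      rw [h1 z hz]
      refine Finset.sum_congr rfl fun i _ => ?_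
      push_cast
      ring
  refine ⟨∑ i, (ca i).toNat, Mdl.Lin.le hca (hk _) fun i => ?_⟩
  have hca0 := hca.nonneg ha i
  have hcb0 := hcb.nonneg hb i
  rcases hcb0.eq_or_lt with h2 | h2
  · rw [h0 i h2.symm, ← h2, mul_zero]
  · have h3 : (ca i).toNat ≤ ∑ j, (ca j).toNat :=
      Finset.single_le_sum (f := fun j => (ca j).toNat) (fun j _ => Nat.zero_le _)
        (Finset.mem_univ i)
    have h4 : ca i ≤ ((∑ j, (ca j).toNat : ℕ) : ℤ) := by
      calc ca i = ((ca i).toNat : ℤ) := (Int.toNat_of_nonneg hca0).symm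
        _ ≤ _ := by exact_mod_cast h3
    have h5 : (0 : ℤ) ≤ ((∑ j, (ca j).toNat : ℕ) : ℤ) := Int.natCast_nonneg _
    nlinarith

end Pool.Agent.Work.MP_552024_lc.EE
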