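import Pool.Agent.Work.MP_552024_lc.EE.Stmts

/-! Block EE, item Asm (helper63): assembly of the functions for the pairs of faces. -/

set_option autoImplicit false

namespace Pool.Agent.Work.MP_552024_lc.EE

open Pool.Agent.MP552024 Pool.Agent.Work.MP_552024_lc.PLS

namespace IAsm

variable {α κ : Type}

/-- maximum of a finite family -/
theorem ex_max (A : Finset α) (hA : A.Nonempty) (m : α → (κ → ℝ) → ℝ) (hm : ∀ i ∈ A, m i ∈ LP κ) :
    ∃ F ∈ LP κ, ∀ x, (∀ i ∈ A, m i x ≤ F x) ∧ ∃ i ∈ A, F x = m i x := by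
  classical
  induction hA using Finset.Nonempty.cons_induction with
  | singleton a =>
    exact ⟨m a, hm a (Finset.mem_singleton_self a), fun x =>
      ⟨fun i hi => by rw [Finset.mem_singleton.1 hi], a, Finset.mem_singleton_self a, rfl⟩⟩
  | cons a s has hs ih =>
    obtain ⟨F, hF, h⟩ := ih fun i hi => hm i (Finset.mem_cons_of_mem hi)
    refine ⟨fun x => max (m a x) (F x), LP_max (hm a (Finset.mem_cons_self a s)) hF,
      fun x => ⟨fun i hi => ?_, ?_⟩⟩
    · rcases Finset.mem_cons.1 hi with rfl | hi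
      · exact le_max_left _ _
      · exact ((h x).1 i hi).trans (le_max_right _ _)
    · rcases max_choice (m a x) (F x) with h1 | h1
      · exact ⟨a, Finset.mem_cons_self a s, h1⟩
      · obtain ⟨i, hi, h2⟩ := (h x).2
        exact ⟨i, Finset.mem_cons_of_mem hi, h1.trans h2⟩

/-- minimum of a finite family -/
theorem ex_min (A : Finset α) (hA : A.Nonempty) (m : α → (κ → ℝ) → ℝ) (hm : ∀ i ∈ A, m i ∈ LP κ) :
    ∃ F ∈ LP κ, ∀ x, (∀ i ∈ A, F x ≤ m i x) ∧ ∃ i ∈ A, F x = m i x := by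
  obtain ⟨F, hF, h⟩ := ex_max A hA (fun i x => -m i x) fun i hi => LP_neg (hm i hi)
  refine ⟨fun x => -F x, LP_neg hF, fun x => ⟨fun i hi => ?_, ?_⟩⟩
  · have h1 := (h x).1 i hi
    linarith
  · obtain ⟨i, hi, h2⟩ := (h x).2
    exact ⟨i, hi, by simp only [h2, neg_neg]⟩

end IAsm

open IAsm in
theorem pr_Asm : StAsm := by
  intro V I _ Δ K h H
  choose! f hf using H
  set A : Finset (Set V) := (Set.toFinite {s : Set V | Δ.face s}).toFinset with hA
  have hmem : ∀ s, s ∈ A ↔ Δ.face s := fun s => Set.Finite.mem_toFinset _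
  have hne : A.Nonempty := ⟨∅, (hmem ∅).2 Δ.empt⟩
  have hG : ∀ t : Set V, Δ.face t → ∃ G ∈ LP I, ∀ x, (∀ s ∈ A, f s t x ≤ G x) ∧
      ∃ s ∈ A, G x = f s t x := fun t ht =>
    ex_max A hne (fun s => f s t) fun s hs => (hf s t ((hmem s).1 hs) ht).1
  choose! G hG using hG
  obtain ⟨F, hF, h2⟩ := ex_min A hne G fun t ht => (hG t ((hmem t).1 ht)).1
  refine ⟨F, hF, fun z hz => le_antisymm ?_ ?_⟩
  · obtain ⟨t, ht, h3⟩ := (h2 (K z)).2
    have ht' := (hmem t).1 ht
    rw [h3]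
    exact ((hf _ t hz.2 ht').2.1 z hz (Set.Subset.refl _)).trans
      (((hG t ht').2 (K z)).1 _ ((hmem _).2 hz.2))
  · have h3 := (h2 (K z)).1 {v | z v ≠ 0} ((hmem _).2 hz.2)
    obtain ⟨s, hs, h4⟩ := ((hG _ hz.2).2 (K z)).2
    refine h3.trans ?_
    rw [h4]
    exact (hf s _ ((hmem s).1 hs) hz.2).2.2 z hz (Set.Subset.refl _)

end Pool.Agent.Work.MP_552024_lc.EE
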