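import Pool.Agent.Work.MP_552024_lc.EE.Stmts

/-!
Item B of Theorem EE: the map `K` is injective on the rational points.
-/

set_option autoImplicit false

namespace Pool.Agent.Work.MP_552024_lc.EE

open Pool.Agent.MP552024 Pool.Agent.Work.MP_552024_lc.PLS

namespace IB

theorem KR_castR {V I : Type} [Fintype V] (c : I → V → ℤ) (q : V → ℚ) :
    KR c (castR q) = castR (KQ c q) := by
  funext i
  simp [KR, KQ, castR]

theorem castR_smul {V : Type} (r : ℚ) (q : V → ℚ) :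
    castR (r • q) = fun i => (r : ℝ) * castR q i := by
  funext i
  simp [castR]

theorem KQ_smul {V I : Type} [Fintype V] (c : I → V → ℤ) (r : ℚ) (q : V → ℚ) :
    KQ c (r • q) = r • KQ c q := by
  funext i
  simp only [KQ, Pi.smul_apply, smul_eq_mul, Finset.mul_sum]
  exact Finset.sum_congr rfl fun v _ => by ring

theorem KQ_zero {V I : Type} [Fintype V] (c : I → V → ℤ) : KQ c (0 : V → ℚ) = 0 := by
  funext i
  simp [KQ]

theorem Qset_smul {H : Type} [AddCommGroup H] [Lattice H] (M : Mdl H) {q : M.V → ℚ}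
    (hq : q ∈ Qset M) {r : ℚ} (hr : 0 ≤ r) : r • q ∈ Qset M := by
  show castR (r • q) ∈ M.Δ.Z
  rw [castR_smul]
  exact Cx.smul_mem hq (by exact_mod_cast hr)

/-- a nonnegative rational multiple of a zero of a homogeneous function -/
theorem LP_ray {I : Type} {F : (I → ℝ) → ℝ} (hF : F ∈ LP I) (r : ℚ) (hr : 0 ≤ r) (s : I → ℚ) :
    F (castR (r • s)) = r * F (castR s) := by
  rw [castR_smul]
  exact LP_hom hF (r : ℝ) (by exact_mod_cast hr) (castR s)

theorem zero_mem_Zset {H : Type} [AddCommGroup H] [Lattice H] (M : Mdl H) (w : H) :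
    (0 : M.V → ℚ) ∈ Zset M w := by
  have h0 : (0 : M.V → ℚ) ∈ Qset M := (pol_Qset M).1
  refine ⟨h0, ?_⟩
  have h1 := M.chart.hom w h0 (le_refl (0 : ℝ))
  rw [zero_mul] at h1
  rw [← h1]
  congr 1
  funext i
  simp [castR]

/-- the predicate of the proof -/
def Q (K : OG) (v : Unit → K.K) (a : K.K) : Prop :=
  (0 ≤ a ∧ Inc (v ()) a) ∧ ¬ Inc a (v ()) ∧ ∃ w, 0 ≤ w ∧ ¬ Inc w a

theorem dfnQ : Dfn (fun K (v : Unit ⊕ Unit → K.K) => Q K (fun a => v (Sum.inl a)) (v (Sum.inr ()))) := by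
  unfold Q
  refine Dfn.and (Dfn.and (Dfn.le DT.zero (DT.var _)) (Dfn.inc (DT.var _) (DT.var _)))
    (Dfn.and (Dfn.not (Dfn.inc (DT.var _) (DT.var _))) (Dfn.ex ?_))
  exact Dfn.and (Dfn.le DT.zero (DT.var _)) (Dfn.not (Dfn.inc (DT.var _) (DT.var _)))

end IB

open IB in
theorem pr_B : StB := by
  intro H _ _ _ M I _ c T hI hT hA x hx y hy hxy
  have hlin : S_linall := prfB9 prfB7
  by_contra hne
  have hx0 : x ≠ 0 := by
    intro h
    apply hne
    rw [h]
    rw [h, KQ_zero] at hxy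
    exact (hA y hy hxy.symm).symm
  obtain ⟨s, hsdef⟩ : ∃ s : I → ℚ, s = KQ c x := ⟨_, rfl⟩
  have hs : s ≠ 0 := fun h => hx0 (hA x hx (hsdef ▸ h))
  obtain ⟨b, hb, hb0, hbs⟩ := LPZ_of_pol (APlB.pol_ray hs)
  obtain ⟨g, hgT, hg⟩ := hI.sur b hb
  have hg0 : 0 ≤ g := M.chart.nonneg_iff.2 (fun z hz => by rw [hg z hz]; exact hb0 _)
  have hZg : ∀ q, q ∈ Zset M g ↔ q ∈ Qset M ∧ KQ c q ∈ ray s := by
    intro q
    constructor
    · rintro ⟨h1, h2⟩
      rw [hg _ h1, KR_castR] at h2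
      exact ⟨h1, (hbs _).1 h2⟩
    · rintro ⟨h1, h2⟩
      refine ⟨h1, ?_⟩
      rw [hg _ h1, KR_castR]
      exact (hbs _).2 h2
  -- the witness in `H`
  have hex : ∃ a : H, Q ⟨H⟩ (fun _ => g) a := by
    have hray : ray x ⊆ Qset M := by
      rintro q ⟨r, hr, rfl⟩
      exact Qset_smul M hx hr
    obtain ⟨a0, ha0, hZ⟩ := exists_Zset M (APlB.pol_ray hx0) hray
    obtain ⟨w, hw⟩ := M.exists_lin (fun _ => 1)
    have hw0 : 0 ≤ w := hw.nonneg' (fun _ => by norm_num)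
    refine ⟨a0, ⟨ha0, ?_⟩, ?_, w, hw0, ?_⟩
    · refine (Zset_le_iff hlin M hg0 ha0).1 ?_
      rw [hZ]
      rintro q ⟨r, hr, rfl⟩
      refine (hZg _).2 ⟨Qset_smul M hx hr, ?_⟩
      rw [KQ_smul, ← hsdef]
      exact ⟨r, hr, rfl⟩
    · intro hinc
      have hsub := (Zset_le_iff hlin M ha0 hg0).2 hinc
      have hyg : y ∈ Zset M g := (hZg y).2 ⟨hy, 1, by norm_num, by rw [one_smul, hsdef, hxy]⟩
      have hyr := hsub hyg
      rw [hZ] at hyr
      obtain ⟨r, hr, hyr⟩ := hyr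
      have h1 : s = r • s := by
        conv_lhs => rw [hsdef, hxy, hyr, KQ_smul, ← hsdef]
      have h2 : (r - 1) • s = 0 := by
        rw [sub_smul, one_smul, ← h1, sub_self]
      rcases smul_eq_zero.1 h2 with h3 | h3
      · have hr1 : r = 1 := by linarith
        rw [hr1, one_smul] at hyr
        exact hne hyr.symm
      · exact hs h3
    · intro hinc
      have hsub := (Zset_le_iff hlin M hw0 ha0).2 hinc
      have hxa : x ∈ Zset M a0 := by
        rw [hZ]
        exact ⟨1, by norm_num, (one_smul _ _).symm⟩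
      have h1 := (hsub hxa).2
      rw [hw _ hx] at h1
      have hnn : ∀ i, 0 ≤ castR x i := hx.1
      have h2 : ∀ i ∈ (Finset.univ : Finset M.V), ((1 : ℤ) : ℝ) * castR x i = 0 :=
        (Finset.sum_eq_zero_iff_of_nonneg (fun i _ => by
          have := hnn i
          push_cast
          linarith)).1 h1
      apply hx0
      funext i
      have h3 := h2 i (Finset.mem_univ _)
      simp only [Int.cast_one, one_mul, castR, Rat.cast_eq_zero] at h3
      exact h3
  obtain ⟨a, haT, ⟨ha0, ha1⟩, ha2, w, hw0, hw⟩ := hT Q dfnQ g hgT hex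
  have hsub1 : Zset M a ⊆ Zset M g := (Zset_le_iff hlin M hg0 ha0).2 ha1
  obtain ⟨F, hF, hFa⟩ := hI.mem a haT
  -- a nonzero zero of `a`
  have hq : ∃ q ∈ Zset M a, q ≠ 0 := by
    by_contra hcon
    push Not at hcon
    apply hw
    refine (Zset_le_iff hlin M hw0 ha0).1 ?_
    intro q hq
    rw [hcon q hq]
    exact zero_mem_Zset M w
  obtain ⟨q, hqa, hq0⟩ := hq
  obtain ⟨hqQ, r, hr, hqr⟩ := (hZg q).1 (hsub1 hqa)
  have hFs : F (castR s) = 0 := by
    have h1 := hqa.2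
    rw [hFa _ hqQ, KR_castR, hqr, LP_ray hF r hr s] at h1
    rcases mul_eq_zero.1 h1 with h2 | h2
    · exfalso
      have hr0 : r = 0 := by exact_mod_cast h2
      rw [hr0, zero_smul] at hqr
      exact hq0 (hA q hqQ hqr)
    · exact h2
  apply ha2
  refine (Zset_le_iff hlin M ha0 hg0).1 ?_
  intro q' hq'
  obtain ⟨h1, r', hr', h2⟩ := (hZg q').1 hq'
  refine ⟨h1, ?_⟩
  rw [hFa _ h1, KR_castR, h2, LP_ray hF r' hr' s, hFs, mul_zero]

end Pool.Agent.Work.MP_552024_lc.EE
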