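import Pool.Agent.Work.MP_552024_lc.EE.Stmts

set_option autoImplicit false

/-! Theorem EE, item C: `K x` integral implies `x` integral (helper67). -/

namespace Pool.Agent.Work.MP_552024_lc.EE

open Pool.Agent.MP552024 Pool.Agent.Work.MP_552024_lc.PLS

namespace IC

theorem KR_castR {V I : Type} [Fintype V] (c : I → V → ℤ) (q : V → ℚ) :
    KR c (castR q) = castR (KQ c q) := by
  funext i
  unfold KR castR KQ
  push_cast
  rfl

theorem KQ_smul {V I : Type} [Fintype V] (c : I → V → ℤ) (r : ℚ) (q : V → ℚ) :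
    KQ c (r • q) = r • KQ c q := by
  funext i
  simp only [KQ, Pi.smul_apply, smul_eq_mul, Finset.mul_sum]
  refine Finset.sum_congr rfl (fun v _ => by ring)

theorem smul_Q {H : Type} [AddCommGroup H] [Lattice H] (M : Mdl H) {r : ℚ} (hr : 0 ≤ r)
    {q : M.V → ℚ} (hq : q ∈ Qset M) : r • q ∈ Qset M := by
  show castR (r • q) ∈ M.Δ.Z
  have h1 : castR (r • q) = fun i => (r : ℝ) * castR q i := by
    funext i
    simp [castR]
  rw [h1]
  exact Cx.smul_mem hq (by exact_mod_cast hr)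

/-- a common denominator -/
theorem exists_den {V : Type} [Fintype V] (x : V → ℚ) :
    ∃ n : ℕ, 0 < n ∧ ∀ v, ∃ k : ℤ, (n : ℚ) * x v = k := by
  refine ⟨∏ v, (x v).den, Finset.prod_pos (fun v _ => (x v).pos), fun v => ?_⟩
  obtain ⟨m, hm⟩ : (x v).den ∣ ∏ v, (x v).den := Finset.dvd_prod_of_mem _ (Finset.mem_univ v)
  refine ⟨(x v).num * m, ?_⟩
  rw [hm]
  push_cast
  have h2 : ((x v).den : ℚ) * x v = (x v).num := by
    rw [mul_comm]
    exact Rat.mul_den_eq_num _
  rw [← h2]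
  ring

/-- the predicate: `a` has the least positive value on the zero set of the parameter -/
def Q (K : OG) (v : Unit → K.K) (a : K.K) : Prop :=
  0 ≤ a ∧ ¬ Inc a (v ()) ∧ ∀ b : K.K, 0 ≤ b → Inc b (v ()) ∨ Inc (a - (a ⊓ b)) (v ())

theorem dfnQ : Dfn (fun K (v : Unit ⊕ Unit → K.K) =>
    Q K (fun a => v (Sum.inl a)) (v (Sum.inr ()))) := by
  unfold Q
  refine Dfn.and (Dfn.le DT.zero (DT.var _)) (Dfn.and
    (Dfn.not (Dfn.inc (DT.var _) (DT.var _))) (Dfn.all ?_))
  exact Dfn.imp (Dfn.le DT.zero (DT.var _)) (Dfn.or (Dfn.inc (DT.var _) (DT.var _))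
    (Dfn.inc (DT.sub (DT.var _) (DT.inf (DT.var _) (DT.var _))) (DT.var _)))

end IC

open IC in
theorem pr_C : StC := by
  intro H _ _ _ M I _ c T hImg hTV hA hB x hx hint
  by_cases hx0 : x = 0
  · intro v
    exact ⟨0, by rw [hx0]; simp⟩
  have hs : KQ c x ≠ 0 := fun h => hx0 (hA x hx h)
  obtain ⟨b, hb, hb0, hbs⟩ := LPZ_of_pol (APlB.pol_ray hs)
  obtain ⟨g, hgT, hg⟩ := hImg.sur b hb
  have hg0 : 0 ≤ g := M.chart.nonneg_iff.2 (fun z hz => by rw [hg z hz]; exact hb0 _)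
  -- the zero set of `g`
  have hZg : ∀ q, q ∈ Zset M g ↔ q ∈ ray x := by
    intro q
    constructor
    · rintro ⟨hq, hq0⟩
      rw [hg _ hq, KR_castR, hbs] at hq0
      obtain ⟨r, hr, hr2⟩ := hq0
      refine ⟨r, hr, ?_⟩
      refine hB q hq (r • x) (smul_Q M hr hx) ?_
      rw [KQ_smul, hr2]
    · rintro ⟨r, hr, rfl⟩
      refine ⟨smul_Q M hr hx, ?_⟩
      rw [hg _ (smul_Q M hr hx), KR_castR, hbs, KQ_smul]
      exact ⟨r, hr, rfl⟩
  have hxg : x ∈ Zset M g := (hZg x).2 ⟨1, zero_le_one, by rw [one_smul]⟩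
  have hInc : ∀ a : H, 0 ≤ a → (Inc a g ↔ M.ev a (castR x) = 0) := by
    intro a ha
    rw [← Zset_le_iff (prfB9 prfB7) M ha hg0]
    constructor
    · intro h
      exact (h hxg).2
    · intro h q hq
      refine ⟨hq.1, ?_⟩
      obtain ⟨r, hr, rfl⟩ := (hZg q).1 hq
      have h1 : castR (r • x) = fun i => (r : ℝ) * castR x i := by
        funext i
        simp [castR]
      rw [h1, M.chart.hom a hx (by exact_mod_cast hr), h, mul_zero]
  have hpos : ∀ a : H, 0 ≤ a → 0 ≤ M.ev a (castR x) := fun a ha =>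
    M.chart.nonneg_iff.1 ha _ hx
  have hinf : ∀ a b : H, M.ev (a - (a ⊓ b)) (castR x) =
      M.ev a (castR x) - min (M.ev a (castR x)) (M.ev b (castR x)) := by
    intro a b
    rw [M.chart.sub _ _ hx, M.chart.inf _ _ hx]
  -- the integrality of the values
  obtain ⟨n, hn, hnx⟩ := exists_den x
  have hval : ∀ a : H, ∃ k : ℤ, (n : ℝ) * M.ev a (castR x) = k := by
    intro a
    have h1 : (fun i => (n : ℝ) * castR x i) ∈ M.Δ.Z := Cx.smul_mem hx (Nat.cast_nonneg n)
    obtain ⟨k, hk⟩ := M.chart.int a h1 (fun v => by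
      obtain ⟨k, hk⟩ := hnx v
      refine ⟨k, ?_⟩
      show (n : ℝ) * ((x v : ℚ) : ℝ) = k
      exact_mod_cast hk)
    refine ⟨k, ?_⟩
    rw [← hk, M.chart.hom a hx (Nat.cast_nonneg n)]
  have hnR : (0 : ℝ) < n := by exact_mod_cast hn
  -- an element with the least positive value
  have hex : ∃ a : H, Q ⟨H⟩ (fun _ => g) a := by
    have hP : ∃ k : ℕ, ∃ a : H, 0 ≤ a ∧ 0 < k ∧ (n : ℝ) * M.ev a (castR x) = k := by
      obtain ⟨v, hv⟩ := Function.ne_iff.1 hx0
      obtain ⟨e, he⟩ := M.chart.hat v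
      have he0 : 0 ≤ e := M.chart.nonneg_iff.2 (fun z hz => by rw [he z hz]; exact hz.1 v)
      obtain ⟨k, hk⟩ := hval e
      have h1 : M.ev e (castR x) = (x v : ℝ) := he _ hx
      have h2 : (0 : ℝ) ≤ (x v : ℝ) := hx.1 v
      have h3 : (x v : ℝ) ≠ 0 := by
        intro h
        exact hv (by exact_mod_cast h)
      have h4 : (0 : ℝ) < (x v : ℝ) := lt_of_le_of_ne h2 (Ne.symm h3)
      have h5 : (0 : ℝ) < (k : ℝ) := by
        rw [← hk, h1]
        exact mul_pos hnR h4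
      have h6 : 0 < k := by exact_mod_cast h5
      refine ⟨k.toNat, e, he0, by omega, ?_⟩
      rw [hk]
      have h7 : ((k.toNat : ℤ) : ℝ) = (k : ℝ) := by rw [Int.toNat_of_nonneg h6.le]
      exact_mod_cast h7.symm
    classical
    obtain ⟨a, ha0, hk0, hak⟩ := Nat.find_spec hP
    have hapos : 0 < M.ev a (castR x) := by
      have h1 : (0 : ℝ) < (n : ℝ) * M.ev a (castR x) := by
        rw [hak]
        exact_mod_cast hk0
      exact (mul_pos_iff_of_pos_left hnR).1 h1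
    refine ⟨a, ha0, ?_, ?_⟩
    · intro h
      have h1 := (hInc a ha0).1 h
      linarith
    · intro b hb0'
      have hb0 : (0 : H) ≤ b := hb0'
      rcases (hpos b hb0).eq_or_lt with h | h
      · exact Or.inl ((hInc b hb0).2 h.symm)
      · right
        have h1 : 0 ≤ a - (a ⊓ b) := sub_nonneg.2 inf_le_left
        refine (hInc _ h1).2 ?_
        rw [hinf, sub_eq_zero, eq_comm]
        refine min_eq_left ?_
        obtain ⟨k, hk⟩ := hval b
        have h2 : (0 : ℝ) < (k : ℝ) := by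
          rw [← hk]
          exact mul_pos hnR h
        have h3 : 0 < k := by exact_mod_cast h2
        have h4 : Nat.find hP ≤ k.toNat := by
          refine Nat.find_min' hP ⟨b, hb0, by omega, ?_⟩
          rw [hk]
          have h7 : ((k.toNat : ℤ) : ℝ) = (k : ℝ) := by rw [Int.toNat_of_nonneg h3.le]
          exact_mod_cast h7.symm
        have h5 : ((Nat.find hP : ℕ) : ℝ) ≤ (k : ℝ) := by
          have h6 : ((Nat.find hP : ℕ) : ℤ) ≤ k := by omega
          exact_mod_cast h6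
        rw [← hak, ← hk] at h5
        exact le_of_mul_le_mul_left h5 hnR
  obtain ⟨a, haT, ha0', hna, hall⟩ := hTV Q dfnQ g hgT hex
  have ha0 : (0 : H) ≤ a := ha0'
  have hmin : ∀ b : H, 0 ≤ b → M.ev b (castR x) = 0 ∨ M.ev a (castR x) ≤ M.ev b (castR x) := by
    intro b hb0
    rcases hall b hb0 with h | h
    · exact Or.inl ((hInc b hb0).1 h)
    · right
      have h1 : 0 ≤ a - (a ⊓ b) := sub_nonneg.2 inf_le_left
      have h2 := (hInc _ h1).1 h
      rw [hinf, sub_eq_zero] at h2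
      rw [h2]
      exact min_le_right _ _
  obtain ⟨F, hF, haF⟩ := hImg.mem a haT
  have hlam : ∃ l : ℤ, M.ev a (castR x) = l := by
    rw [haF _ hx, KR_castR]
    refine LP_int hF _ (fun i => ?_)
    obtain ⟨k, hk⟩ := hint i
    refine ⟨k, ?_⟩
    show ((KQ c x i : ℚ) : ℝ) = k
    rw [hk]
    push_cast
    rfl
  obtain ⟨l, hl⟩ := hlam
  have hapos : 0 < M.ev a (castR x) := by
    refine lt_of_le_of_ne (hpos a ha0) (fun h => hna ?_)
    exact (hInc a ha0).2 h.symm
  intro v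
  obtain ⟨e, he⟩ := M.chart.hat v
  have hev : M.ev e (castR x) = (x v : ℝ) := he _ hx
  have hxv : (0 : ℝ) ≤ (x v : ℝ) := hx.1 v
  set m : ℕ := ⌊(x v : ℝ) / M.ev a (castR x)⌋₊ with hm
  have hm1 : (m : ℝ) * M.ev a (castR x) ≤ x v := by
    have h1 : (m : ℝ) ≤ (x v : ℝ) / M.ev a (castR x) := Nat.floor_le (div_nonneg hxv hapos.le)
    rwa [le_div_iff₀ hapos] at h1
  have hm2 : (x v : ℝ) < ((m : ℝ) + 1) * M.ev a (castR x) := by
    have h1 : (x v : ℝ) / M.ev a (castR x) < (m : ℝ) + 1 := Nat.lt_floor_add_one _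
    rwa [div_lt_iff₀ hapos] at h1
  have hb1 : M.ev ((e - m • a) ⊔ 0) (castR x) = (x v : ℝ) - m * M.ev a (castR x) := by
    rw [M.chart.sup _ _ _ hx, M.chart.sub _ _ hx, M.chart.nsmul _ _ hx, M.chart.zero hx, hev]
    exact max_eq_left (by linarith)
  rcases hmin ((e - m • a) ⊔ 0) le_sup_right with h | h
  · rw [hb1, hl] at h
    refine ⟨m * l, ?_⟩
    have h2 : (x v : ℝ) = (m : ℝ) * l := by linarith
    have h3 : ((x v : ℚ) : ℝ) = (((m * l : ℤ) : ℚ) : ℝ) := by
      rw [h2]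
      push_cast
      rfl
    exact_mod_cast h3
  · rw [hb1] at h
    exfalso
    nlinarith

end Pool.Agent.Work.MP_552024_lc.EE
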