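import Pool.Agent.Work.MP_552024_lc.EE.Stmts

/-!
# Theorem EE, item Hom: an elementary embedding is a homomorphism of lattice-ordered groups
-/

set_option autoImplicit false

namespace Pool.Agent.Work.MP_552024_lc.EE

open Pool.Agent.MP552024 Pool.Agent.Work.MP_552024_lc.PLS

theorem IHom.tr {G H : Type} [AddCommGroup G] [Lattice G] [IsOrderedAddMonoid G]
    [AddCommGroup H] [Lattice H] [IsOrderedAddMonoid H]
    (j : @FirstOrder.Language.ElementaryEmbedding L2 G H (str G) (str H)) {α : Type}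
    {P : ∀ K : OG, (α → K.K) → Prop} (h : Dfn P) (v : α → G) :
    P ⟨H⟩ (fun a => j (v a)) ↔ P ⟨G⟩ v := by
  obtain ⟨φ, hφ⟩ := h
  exact (hφ ⟨H⟩ _).symm.trans
    ((@FirstOrder.Language.ElementaryEmbedding.map_formula L2 G H (str G) (str H) j α φ v).trans
      (hφ ⟨G⟩ v))

theorem pr_Hom : StHom := by
  intro G H _ _ _ _ _ _ j
  have hle : ∀ a b : G, j a ≤ j b ↔ a ≤ b := fun a b =>
    IHom.tr j (Dfn.le_var (α := Bool) false true) (fun t => if t then b else a)
  have hadd : ∀ a b : G, j (a + b) = j a + j b := fun a b =>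
    (IHom.tr j (Dfn.add_var (α := Fin 3) 0 1 2) ![a, b, a + b]).2 rfl
  have hinf : ∀ a b : G, j (a ⊓ b) = j a ⊓ j b := fun a b =>
    (IHom.tr j (DT.inf (DT.var (α := Fin 2) 0) (DT.var (α := Fin 2) 1))
      (Sum.elim ![a, b] (fun _ => a ⊓ b))).2 rfl
  have h0 : j (0 : G) = 0 := by
    have h1 := hadd 0 0
    rw [add_zero] at h1
    exact left_eq_add.1 h1
  have hneg : ∀ a : G, j (-a) = -j a := by
    intro a
    have h1 := hadd (-a) a
    rw [neg_add_cancel, h0] at h1
    exact eq_neg_of_add_eq_zero_left h1.symm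
  have hsup : ∀ a b : G, j (a ⊔ b) = j a ⊔ j b := by
    intro a b
    have h1 := hadd (a ⊓ b) (a ⊔ b)
    rw [inf_add_sup, hadd, hinf, ← inf_add_sup (j a) (j b)] at h1
    exact (add_left_cancel h1).symm
  exact ⟨hadd, h0, hneg, hsup, hinf, hle⟩

end Pool.Agent.Work.MP_552024_lc.EE
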