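import Pool.Agent.Work.MP_552024_lc.EE.Stmts

/-!
# Theorem EE, item Im: the image of `j` is the set of the functions `F o K`
-/

set_option autoImplicit false

namespace Pool.Agent.Work.MP_552024_lc.EE

open Pool.Agent.MP552024 Pool.Agent.Work.MP_552024_lc.PLS

/-- the image of `j` is the set of the functions `F o K`, `F` in `LP I` -/
theorem pr_Im : StIm := by
  intro G H _ _ _ _ _ _ j jadd jzero jneg jsup jinf I g hgen M c hc
  have hcoord : ∀ i, ∀ z ∈ M.Δ.Z, M.ev (j (g i)) z = KR c z i := fun i z hz => hc i z hz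
  constructor
  · rintro x ⟨x, rfl⟩
    refine hgen {x : G | ∃ F ∈ LP I, ∀ z ∈ M.Δ.Z, M.ev (j x) z = F (KR c z)} ?_ ?_ ?_ x
    · intro i
      exact ⟨fun y => y i, LP_coord i, fun z hz => hcoord i z hz⟩
    · refine ⟨fun _ => 0, LP_zero, fun z hz => ?_⟩
      rw [jzero, M.chart.zero hz]
    · rintro a ⟨A, hA, hA'⟩ b ⟨B, hB, hB'⟩
      refine ⟨⟨_, LP_add hA hB, fun z hz => ?_⟩, ⟨_, LP_neg hA, fun z hz => ?_⟩,
        ⟨_, LP_max hA hB, fun z hz => ?_⟩, ⟨_, LP_min hA hB, fun z hz => ?_⟩⟩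
      · rw [jadd, M.chart.add _ _ z hz, hA' z hz, hB' z hz]
      · rw [jneg, M.chart.neg _ hz, hA' z hz]
      · rw [jsup, M.chart.sup _ _ z hz, hA' z hz, hB' z hz]
      · rw [jinf, M.chart.inf _ _ hz, hA' z hz, hB' z hz]
  · intro F hF
    have h : ∃ x : G, ∀ z ∈ M.Δ.Z, M.ev (j x) z = F (KR c z) := by
      refine LP_ind (P := fun F : (I → ℝ) → ℝ => ∃ x : G, ∀ z ∈ M.Δ.Z,
        M.ev (j x) z = F (KR c z)) hF ?_ ?_ ?_ ?_ ?_ ?_
      · intro i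
        exact ⟨g i, fun z hz => hcoord i z hz⟩
      · refine ⟨0, fun z hz => ?_⟩
        rw [jzero, M.chart.zero hz]
      · rintro A B ⟨a, ha⟩ ⟨b, hb⟩
        refine ⟨a + b, fun z hz => ?_⟩
        rw [jadd, M.chart.add _ _ z hz, ha z hz, hb z hz]
      · rintro A ⟨a, ha⟩
        refine ⟨-a, fun z hz => ?_⟩
        rw [jneg, M.chart.neg _ hz, ha z hz]
      · rintro A B ⟨a, ha⟩ ⟨b, hb⟩
        refine ⟨a ⊔ b, fun z hz => ?_⟩
        rw [jsup, M.chart.sup _ _ z hz, ha z hz, hb z hz]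
      · rintro A B ⟨a, ha⟩ ⟨b, hb⟩
        refine ⟨a ⊓ b, fun z hz => ?_⟩
        rw [jinf, M.chart.inf _ _ hz, ha z hz, hb z hz]
    obtain ⟨x, hx⟩ := h
    exact ⟨j x, ⟨x, rfl⟩, hx⟩

end Pool.Agent.Work.MP_552024_lc.EE
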