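import Pool.Agent.Work.MP_552024_lc.EE.Stmts

/-!
MP_552024_lc, block EE, item Pair: a function of `LP I` above `h` on the cone of `s` and below `h` on the
cone of `t`.
-/

set_option autoImplicit false

namespace Pool.Agent.Work.MP_552024_lc.EE

open Pool.Agent.MP552024 Pool.Agent.Work.MP_552024_lc.PLS

namespace IPair

/-- `R` inverts `K` on the vectors supported in `s` -/
theorem inv_apply {V I : Type} [Fintype V] [Fintype I] {c : I → V → ℤ} {s : Set V}
    {R : V → I → ℤ} (hR : LInv c s R) (z : V → ℝ) (hz : {v | z v ≠ 0} ⊆ s) (v : V) :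
    ∑ i, (R v i : ℝ) * KR c z i = z v := by
  classical
  by_cases hv : v ∈ s
  · have h1 : ∑ i, (R v i : ℝ) * KR c z i = ∑ u, ((∑ i, R v i * c i u : ℤ) : ℝ) * z u := by
      unfold KR
      have h2 : ∀ u, ((∑ i, R v i * c i u : ℤ) : ℝ) * z u = ∑ i, (R v i : ℝ) * ((c i u : ℝ) * z u) := by
        intro u
        push_cast
        rw [Finset.sum_mul]
        exact Finset.sum_congr rfl (fun i _ => by ring)
      rw [Finset.sum_congr rfl (fun u _ => h2 u), Finset.sum_comm]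
      exact Finset.sum_congr rfl (fun i _ => by rw [Finset.mul_sum])
    rw [h1, Finset.sum_eq_single v]
    · rw [hR.one v hv]; simp
    · intro u _ huv
      by_cases hu : z u = 0
      · rw [hu, mul_zero]
      · rw [hR.off v hv u (hz hu) huv.symm]; simp
    · intro h; exact absurd (Finset.mem_univ _) h
  · have h1 : z v = 0 := by
      by_contra h
      exact hv (hz h)
    rw [h1]
    exact Finset.sum_eq_zero (fun i _ => by rw [hR.out v hv i]; simp)

/-- the integral form `L` -/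
theorem form {H : Type} [AddCommGroup H] [Lattice H] (M : Mdl H) {I : Type} [Fintype I]
    {c : I → M.V → ℤ} {h : H} {d : M.V → ℤ} (hd : M.Lin h d) {s : Set M.V} {R : M.V → I → ℤ}
    (hR : LInv c s R) : ∃ L ∈ LP I, ∀ z ∈ M.Δ.Z, {v | z v ≠ 0} ⊆ s → L (KR c z) = M.ev h z := by
  refine ⟨_, LP_sum (Finset.univ : Finset M.V) (fun v (y : I → ℝ) => (d v : ℝ) * ∑ i, (R v i : ℝ) * y i)
    (fun v _ => LP_zsmul (d v) (LP_lin (R v))), fun z hz hs => ?_⟩
  show ∑ v, (d v : ℝ) * ∑ i, (R v i : ℝ) * KR c z i = M.ev h z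
  rw [hd z hz]
  exact Finset.sum_congr rfl (fun v _ => by rw [inv_apply hR z hs v])

/-- `K` composed with a function of `LP I` -/
theorem comp_mem {V I : Type} [Fintype V] (c : I → V → ℤ) {F : (I → ℝ) → ℝ} (hF : F ∈ LP I) :
    (fun z : V → ℝ => F (KR c z)) ∈ LP V :=
  LP_comp hF (fun i z => KR c z i) (fun i => LP_lin (c i))

end IPair

open IPair in
theorem pr_Pair (hP : StP) (hArc : StArc) : StPair := by
  classical
  intro H _ _ _ M I _ c hinj hR h d hd s t hs ht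
  obtain ⟨Rs, hRs⟩ := hR s hs
  obtain ⟨Rt, hRt⟩ := hR t ht
  obtain ⟨Ls, hLs, hLs'⟩ := form M hd hRs
  obtain ⟨Lt, hLt, hLt'⟩ := form M hd hRt
  obtain ⟨P, hPm, hP0, hPt, hPq⟩ := hP H M I c hinj t ht Rt hRt
  obtain ⟨D, hD⟩ := M.chart.sur _ (LP_sub (comp_mem c hLs) (comp_mem c hLt))
  obtain ⟨P', hP'⟩ := M.chart.sur _ (comp_mem c hPm)
  obtain ⟨W, hW⟩ := M.chart.sur _ (LP_sum (Finset.univ.filter (fun v : M.V => v ∉ s))
    (fun v (z : M.V → ℝ) => z v) (fun v _ => LP_coord v))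
  have hW0 : ∀ z ∈ M.Δ.Z, 0 ≤ M.ev W z := by
    intro z hz
    rw [hW z hz]
    exact Finset.sum_nonneg (fun v _ => hz.1 v)
  have hPW : ∀ z ∈ M.Δ.Z, M.ev (P' + W) z = P (KR c z) + M.ev W z := by
    intro z hz
    rw [M.chart.add _ _ z hz, hP' z hz]
  have hDs : ∀ z ∈ M.Δ.Z, M.ev (D ⊔ 0) z = max (Ls (KR c z) - Lt (KR c z)) 0 := by
    intro z hz
    rw [M.chart.sup _ _ z hz, hD z hz, M.chart.zero hz]
  have hPW0 : 0 ≤ P' + W := by
    refine M.chart.nonneg_iff.2 (fun z hz => ?_)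
    rw [hPW z hz]
    exact add_nonneg (hP0 _) (hW0 z hz)
  have hZ : Zset M (P' + W) ⊆ Zset M (D ⊔ 0) := by
    rintro q ⟨hq, hq0⟩
    have hqZ : castR q ∈ M.Δ.Z := hq
    refine ⟨hq, ?_⟩
    rw [hPW _ hqZ] at hq0
    have h1 : P (KR c (castR q)) = 0 := le_antisymm (by linarith [hW0 _ hqZ]) (hP0 _)
    have h2 : M.ev W (castR q) = 0 := by linarith
    have h3 : {v | castR q v ≠ 0} ⊆ t := by
      intro v hv
      refine hPq q hq h1 ?_
      intro h4
      apply hv
      show ((q v : ℚ) : ℝ) = 0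
      rw [h4]; simp
    have h4 : {v | castR q v ≠ 0} ⊆ s := by
      intro v hv
      by_contra h5
      apply hv
      rw [hW _ hqZ] at h2
      exact (Finset.sum_eq_zero_iff_of_nonneg (fun v _ => hqZ.1 v)).1 h2 v
        (Finset.mem_filter.2 ⟨Finset.mem_univ _, h5⟩)
    rw [hDs _ hqZ, hLs' _ hqZ h4, hLt' _ hqZ h3, sub_self, max_self]
  obtain ⟨k, hk⟩ := hArc H M (D ⊔ 0) (P' + W) le_sup_right hPW0 hZ
  refine ⟨_, LP_add hLt (LP_nsmul k hPm), fun z hz hzs => ?_, fun z hz hzt => ?_⟩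
  · have h1 := M.chart.le_iff.1 hk z hz
    rw [hDs z hz, M.chart.nsmul k _ hz, hPW z hz] at h1
    have h2 : M.ev W z = 0 := by
      rw [hW z hz]
      refine Finset.sum_eq_zero (fun v hv => ?_)
      by_contra h3
      exact (Finset.mem_filter.1 hv).2 (hzs h3)
    rw [h2, add_zero] at h1
    have h3 := (le_max_left (Ls (KR c z) - Lt (KR c z)) 0).trans h1
    rw [hLs' z hz hzs] at h3
    linarith
  · rw [hLt' z hz hzt, hPt z hz hzt, mul_zero, add_zero]

end Pool.Agent.Work.MP_552024_lc.EE
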