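import Pool.Agent.Work.MP_552024_lc.EE.Stmts

/-! # Theorem EE: item R -/

set_option autoImplicit false

namespace Pool.Agent.Work.MP_552024_lc.EE

open Pool.Agent.MP552024 Pool.Agent.Work.MP_552024_lc.PLS

open Classical in
theorem pr_R (hAlg : StAlg) : StR := by
  intro H _ _ _ M I _ c hx s hs
  have : Fintype s := Fintype.ofFinite s
  obtain ⟨R, h1, h2⟩ := hAlg s I (fun v i => c i v) (by
    intro r hr
    obtain ⟨m, hm⟩ : ∃ m : ℕ, ∀ v, 0 ≤ r v + m := by
      refine ⟨∑ v, ⌈|r v|⌉₊, fun v => ?_⟩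
      have e1 : |r v| ≤ ⌈|r v|⌉₊ := Nat.le_ceil _
      have e2 : ⌈|r v|⌉₊ ≤ ∑ v, ⌈|r v|⌉₊ :=
        Finset.single_le_sum (f := fun v => ⌈|r v|⌉₊) (fun _ _ => Nat.zero_le _)
          (Finset.mem_univ v)
      have e3 : ((⌈|r v|⌉₊ : ℕ) : ℚ) ≤ ((∑ v, ⌈|r v|⌉₊ : ℕ) : ℚ) := by exact_mod_cast e2
      have e4 := neg_abs_le (r v)
      linarith
    have hsum : ∀ i : I, ∀ x : M.V → ℚ, (∀ v ∉ s, x v = 0) →
        ∑ v, (c i v : ℚ) * x v = ∑ v : s, (c i v : ℚ) * x v := by
      intro i x h0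
      rw [← Finset.sum_subtype (Finset.univ.filter (· ∈ s)) (by simp)
        (fun v => (c i v : ℚ) * x v), Finset.sum_filter]
      refine Finset.sum_congr rfl fun v _ => ?_
      by_cases hv : v ∈ s
      · rw [if_pos hv]
      · rw [if_neg hv, h0 v hv, mul_zero]
    set x : M.V → ℚ := fun v => if h : v ∈ s then r ⟨v, h⟩ + m else 0 with hxd
    have hx0 : ∀ v ∉ s, x v = 0 := fun v hv => by rw [hxd]; exact dif_neg hv
    have hx1 : ∀ v : s, x v = r v + m := fun v => by rw [hxd]; exact dif_pos v.2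
    have hxQ : x ∈ Qset M := by
      refine ⟨fun v => ?_, ?_⟩
      · change (0 : ℝ) ≤ ((x v : ℚ) : ℝ)
        by_cases hv : v ∈ s
        · have := hm ⟨v, hv⟩
          rw [← hx1 ⟨v, hv⟩] at this
          exact_mod_cast this
        · rw [hx0 v hv, Rat.cast_zero]
      · refine M.Δ.down s _ (fun v hv => ?_) hs
        by_contra hv'
        refine hv ?_
        change ((x v : ℚ) : ℝ) = 0
        rw [hx0 v hv', Rat.cast_zero]
    have hK : ∀ i, ∃ k : ℤ, KQ c x i = k := by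
      intro i
      obtain ⟨k, hk⟩ := hr i
      refine ⟨k + m * ∑ v : s, c i v, ?_⟩
      unfold KQ
      rw [hsum i x hx0]
      have : ∀ v : s, (c i v : ℚ) * x v = r v * (c i v : ℚ) + m * (c i v : ℚ) := fun v => by
        rw [hx1 v]; ring
      rw [Finset.sum_congr rfl fun v _ => this v, Finset.sum_add_distrib, hk, ← Finset.mul_sum]
      push_cast
      ring
    intro u
    obtain ⟨k, hk⟩ := hx x hxQ hK u
    refine ⟨k - m, ?_⟩
    rw [hx1 u] at hk
    push_cast
    linarith)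
  refine ⟨fun v i => if h : v ∈ s then R ⟨v, h⟩ i else 0, ⟨?_, ?_, ?_⟩⟩
  · intro u hu i
    exact dif_neg hu
  · intro u hu
    have := h1 ⟨u, hu⟩
    rw [← this]
    refine Finset.sum_congr rfl fun i _ => ?_
    rw [dif_pos hu]
  · intro u hu v hv huv
    have := h2 ⟨u, hu⟩ ⟨v, hv⟩ (fun h => huv (congrArg Subtype.val h))
    rw [← this]
    refine Finset.sum_congr rfl fun i _ => ?_
    rw [dif_pos hu]

end Pool.Agent.Work.MP_552024_lc.EE
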