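import Pool.Agent.Work.MP_552024_lc.EE.Stmts
import Pool.Agent.Work.MP_552024_lc.B7
import Pool.Agent.Work.MP_552024_lc.B9

/-!
# Theorem EE, item Rat: positivity is seen at the rational points
-/

set_option autoImplicit false

namespace Pool.Agent.Work.MP_552024_lc.EE

open Pool.Agent.MP552024 Pool.Agent.Work.MP_552024_lc.PLS

/-- Positivity is seen at the rational points. -/
theorem pr_Rat : StRat := by
  intro H _ _ _ M a h
  obtain ⟨N, hMN, hN⟩ := prfB9 prfB7 H M Unit (fun _ => a)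
  obtain ⟨ca, hca⟩ := hN ()
  refine hca.nonneg' (fun i => ?_)
  obtain ⟨T, hT1, _, hT3⟩ := hMN.map
  have hpt := Cx.pt_mem (Δ := N.Δ) i
  have hint : ∀ v, ∃ k : ℤ, T (pt i) v = k := by
    intro v
    obtain ⟨hv, hhv⟩ := M.chart.hat v
    obtain ⟨k, hk⟩ := N.chart.int_pt hv i
    refine ⟨k, ?_⟩
    rw [← hhv _ (hT1 _ hpt), ← hT3 hv _ hpt, hk]
  choose x hx using hint
  have hcast : castR (fun v => (x v : ℚ)) = T (pt i) := by
    ext v; rw [hx v]; simp [castR]
  have hQ : (fun v => (x v : ℚ)) ∈ Qset M := by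
    show castR _ ∈ M.Δ.Z
    rw [hcast]; exact hT1 _ hpt
  have h2 := h _ hQ
  rw [hcast, ← hT3 a _ hpt, hca.pt i] at h2
  exact_mod_cast h2

end Pool.Agent.Work.MP_552024_lc.EE
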