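import Pool.Agent.Work.MP_552024_lc.EE.Stmts

/-!
MP_552024_lc, block EE, item TV: the Tarski-Vaught property of the image of an elementary embedding.
-/

set_option autoImplicit false

namespace Pool.Agent.Work.MP_552024_lc.EE

open Pool.Agent.MP552024 Pool.Agent.Work.MP_552024_lc.PLS

namespace ITV

/-- an elementary embedding preserves the uniformly definable predicates -/
theorem map_dfn {G H : Type} [AddCommGroup G] [Lattice G] [IsOrderedAddMonoid G]
    [AddCommGroup H] [Lattice H] [IsOrderedAddMonoid H]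
    (j : @FirstOrder.Language.ElementaryEmbedding L2 G H (str G) (str H)) {α : Type}
    {P : ∀ K : OG, (α → K.K) → Prop} (hP : Dfn P) (v : α → G) :
    P ⟨H⟩ (fun a => j (v a)) ↔ P ⟨G⟩ v := by
  obtain ⟨φ, hφ⟩ := hP
  exact ((hφ ⟨H⟩ (fun a => j (v a))).symm.trans
    (@FirstOrder.Language.ElementaryEmbedding.map_formula L2 G H (str G) (str H) j α φ v)).trans
    (hφ ⟨G⟩ v)

end ITV

theorem pr_TV : StTV := by
  intro G H _ _ _ _ _ _ j Q hQ g hg hx
  obtain ⟨g0, rfl⟩ := hg
  obtain ⟨x0, hx0⟩ := (ITV.map_dfn j (Dfn.ex hQ) (fun _ : Unit => g0)).1 hx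
  exact ⟨j x0, ⟨x0, rfl⟩,
    (ITV.map_dfn j hQ (Sum.elim (fun _ => g0) (fun _ => x0))).2 hx0⟩

end Pool.Agent.Work.MP_552024_lc.EE
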