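import Pool.Agent.Work.MP_552024_lc.EE.Fin
import Pool.Agent.Work.MP_552024_lc.EE.I_Rat
import Pool.Agent.Work.MP_552024_lc.EE.I_Arc
import Pool.Agent.Work.MP_552024_lc.EE.I_TV
import Pool.Agent.Work.MP_552024_lc.EE.I_Hom
import Pool.Agent.Work.MP_552024_lc.EE.I_Im
import Pool.Agent.Work.MP_552024_lc.EE.I_A
import Pool.Agent.Work.MP_552024_lc.EE.I_B
import Pool.Agent.Work.MP_552024_lc.EE.I_C
import Pool.Agent.Work.MP_552024_lc.EE.I_Alg
import Pool.Agent.Work.MP_552024_lc.EE.I_R
import Pool.Agent.Work.MP_552024_lc.EE.I_P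
import Pool.Agent.Work.MP_552024_lc.EE.I_Pair
import Pool.Agent.Work.MP_552024_lc.EE.I_Asm

/-!
# Theorem EE, first part, assembled
-/

set_option autoImplicit false

namespace Pool.Agent.Work.MP_552024_lc.EE

/-- elementary embeddings of finitely generated groups in finitely presented ones are onto -/
theorem all_Fin : StFin :=
  pr_Fin pr_TV pr_Hom pr_Im pr_A pr_B pr_C (pr_R pr_Alg) (pr_Pair pr_P pr_Arc) pr_Asm

end Pool.Agent.Work.MP_552024_lc.EE
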