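import Pool.Agent.Work.MP_552024_lc.EE.StmtsN

/-!
# Theorem EE, second part: the final assembly
-/

set_option autoImplicit false

namespace Pool.Agent.Work.MP_552024_lc.EE

open Pool.Agent.MP552024 Pool.Agent.Work.MP_552024_lc.PLS

theorem pr_N (hFin : StFin) (hHom : StHom) (hVdm : StVdm) (hCan : StCan) (hHats : StHats)
    (hDef : StDef) (hSol : StSol) (hMin : StMin) (hEmb : StEmb) : StN := by
  classical
  intro d G _ _ _ n f hf hdim ψ hP
  have hlin : S_linall := prfB9 prfB7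
  have hq : S_quot := prfC2 prfC1 prfC1b hlin
  obtain ⟨M, t, ht⟩ := hq n f hf G ψ hP
  obtain ⟨c, hc⟩ := hVdm M.V M.Δ d (fun s hs => face_card hP M t ht hdim s hs)
  have hg : ∀ i, ∃ g : G, M.Lin g (c i) := fun i => M.exists_lin (c i)
  choose g hg using hg
  have ha : ∀ v, ∃ a : G, ∀ z ∈ M.Δ.Z, M.ev a z = z v := fun v => M.chart.hat v
  choose a ha using ha
  -- the equation
  obtain ⟨D, hD, L, hL⟩ := hCan M.V (Fin d) M.V M.Δ c hc (fun u v => if u = v then 1 else 0)
  have : Fintype (Set M.V) := Fintype.ofFinite _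
  obtain ⟨hdef, hmean⟩ := hDef (Set M.V) M.V (Fin d) D L
  have hsat : Alg2 D L ⟨G⟩ (Sum.elim a g) := by
    refine (hmean ⟨G⟩ M _).2 (fun z hz => ⟨{v | z v ≠ 0}, fun u => ?_⟩)
    simp only [Sum.elim_inl, Sum.elim_inr]
    rw [ha u z hz]
    have h1 : ∀ i, M.ev (g i) z = ∑ v, (c i v : ℝ) * z v := fun i => hg i z hz
    have h2 : ∑ i, (L {v | z v ≠ 0} u i : ℝ) * M.ev (g i) z =
        ∑ v, (∑ i, (L {v | z v ≠ 0} u i : ℝ) * (c i v : ℝ)) * z v := by
      simp only [h1, Finset.mul_sum, Finset.sum_mul]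
      rw [Finset.sum_comm]
      refine Finset.sum_congr rfl (fun v _ => Finset.sum_congr rfl (fun i _ => by ring))
    rw [h2]
    have h3 : ∀ v, (∑ i, (L {v | z v ≠ 0} u i : ℝ) * (c i v : ℝ)) * z v =
        (if u = v then (D : ℝ) * z v else 0) := by
      intro v
      by_cases hv : z v = 0
      · rw [hv, mul_zero, mul_zero, ite_self]
      · have h4 := hL {v | z v ≠ 0} hz.2 u v hv
        have h5 : (∑ i, (L {v | z v ≠ 0} u i : ℝ) * (c i v : ℝ)) =
            (((D : ℤ) * (if u = v then 1 else 0) : ℤ) : ℝ) := by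
          rw [h4]
          push_cast
          rfl
        rw [h5]
        split_ifs with h6
        · push_cast
          ring
        · push_cast
          ring
    rw [Finset.sum_congr rfl (fun v _ => h3 v), Finset.sum_ite_eq]
    simp
  have hfinset : {x : M.V → G | Alg2 D L ⟨G⟩ (Sum.elim x g)}.Finite := by
    have hy : ∀ s : Set M.V, ∀ u : M.V, ∃ y : G, ∀ z ∈ M.Δ.Z,
        M.ev y z = ∑ i, (L s u i : ℝ) * M.ev (g i) z := by
      intro s u
      refine ⟨∑ i, L s u i • g i, fun z hz => ?_⟩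
      rw [M.chart.sum _ _ hz]
      refine Finset.sum_congr rfl (fun i _ => ?_)
      rcases Int.eq_nat_or_neg (L s u i) with ⟨k, hk | hk⟩
      · rw [hk, natCast_zsmul, M.chart.nsmul k (g i) hz]
        push_cast
        rfl
      · rw [hk, neg_zsmul, natCast_zsmul, M.chart.neg _ hz, M.chart.nsmul k (g i) hz]
        push_cast
        ring
    choose y hy using hy
    refine (hSol G M (Set M.V) M.V D hD y).subset ?_
    intro x hx z hz
    obtain ⟨s, hs⟩ := (hmean ⟨G⟩ M _).1 hx z hz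
    refine ⟨s, fun u => ?_⟩
    rw [hy s u z hz]
    exact hs u
  refine ⟨g, ?_⟩
  intro H _ _ _ m f' hf' ψ' hP' h hT
  have hST : SameT ⟨G⟩ ⟨H⟩ g h := by
    rintro P ⟨φ, hφ⟩
    exact (hφ ⟨G⟩ g).symm.trans ((hT φ).trans (hφ ⟨H⟩ h))
  obtain ⟨b, hb⟩ := hMin M.V (Fin d) ⟨G⟩ ⟨H⟩ a g h hST _ hdef hsat hfinset
  have hgena : Gen a := hHats G M a ha
  have hgen : Gen (Sum.elim a g : M.V ⊕ Fin d → G) := by
    intro T hT h0 hT2
    exact hgena T (fun i => hT (Sum.inl i)) h0 hT2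
  obtain ⟨j, hj⟩ := hEmb G H (M.V ⊕ Fin d) (Sum.elim a g) (Sum.elim b h) hgen hb
  have hsurj : Function.Surjective j := by
    refine hFin G H ⟨Set.range a, Set.finite_range a, fun T hT h0 hT2 => ?_⟩ m f' hf' ψ' hP' j
    refine Set.eq_univ_of_forall (hgena T (fun i => hT ⟨i, rfl⟩) h0 hT2)
  obtain ⟨j1, _, _, _, _, j6⟩ := hHom G H j
  have hinj : Function.Injective j := by
    intro x y hxy
    exact le_antisymm ((j6 x y).1 hxy.le) ((j6 y x).1 hxy.ge)
  refine ⟨AddEquiv.mk (Equiv.ofBijective j ⟨hinj, hsurj⟩) j1, fun i => ?_, fun x y => ?_⟩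
  · exact hj (Sum.inr i)
  · exact j6 x y

end Pool.Agent.Work.MP_552024_lc.EE
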