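import Pool.Agent.Work.MP_552024_lc.EE.StmtsN

set_option autoImplicit false

namespace Pool.Agent.Work.MP_552024_lc.EE

open Pool.Agent.MP552024 Pool.Agent.Work.MP_552024_lc.PLS

namespace ICan

/-- a common denominator -/
theorem denom {J : Type} [Fintype J] (q : J → ℚ) :
    ∃ D : ℕ, 0 < D ∧ ∃ k : J → ℤ, ∀ j, (D : ℚ) * q j = k j := by
  refine ⟨∏ j, (q j).den, Finset.prod_pos fun j _ => (q j).den_pos, ?_⟩
  have h : ∀ j, ∃ k : ℤ, ((∏ j, (q j).den : ℕ) : ℚ) * q j = k := by
    intro j
    obtain ⟨m, hm⟩ := Finset.dvd_prod_of_mem (fun j => (q j).den) (Finset.mem_univ j)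
    refine ⟨m * (q j).num, ?_⟩
    rw [hm]
    push_cast
    have h1 : q j * ((q j).den : ℚ) = (q j).num := Rat.mul_den_eq_num (q j)
    rw [← h1]
    ring
  choose k hk using h
  exact ⟨k, hk⟩

/-- the linear form on one face -/
theorem form {V I : Type} [Fintype V] [Fintype I] (c : I → V → ℤ) (s : Set V)
    (h : ∀ r : V → ℚ, (∀ v ∉ s, r v = 0) → KQ c r = 0 → r = 0) (e : V → ℤ) :
    ∃ l : I → ℚ, ∀ v ∈ s, (e v : ℚ) = ∑ i, l i * (c i v : ℚ) := by
  classical
  let M : Matrix I s ℚ := fun i v => (c i v : ℚ)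
  have hker : LinearMap.ker (Matrix.mulVecLin M) = ⊥ := by
    rw [LinearMap.ker_eq_bot']
    intro r hr
    have h0 := h (fun v => if hv : v ∈ s then r ⟨v, hv⟩ else 0) (fun v hv => by simp [hv]) (by
      funext i
      have hi := congrFun hr i
      rw [Matrix.mulVecLin_apply] at hi
      simp only [Matrix.mulVec, dotProduct, M, Pi.zero_apply] at hi
      refine Eq.trans ?_ hi
      unfold KQ
      symm
      have h1 : ∑ x : s, (c i x : ℚ) * r x =
          ∑ x : s, (fun v => (c i v : ℚ) * (if hv : v ∈ s then r ⟨v, hv⟩ else 0)) (x : V) := by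
        refine Finset.sum_congr rfl fun x _ => ?_
        simp
      rw [h1, Finset.sum_set_coe (f := fun v => (c i v : ℚ) * (if hv : v ∈ s then r ⟨v, hv⟩ else 0)) s]
      refine Finset.sum_subset (Finset.subset_univ _) fun x _ hx => ?_
      rw [Set.mem_toFinset] at hx
      simp [hx])
    funext x
    have hx := congrFun h0 (x : V)
    simpa using hx
  obtain ⟨g, hg⟩ := LinearMap.exists_leftInverse_of_injective _ hker
  refine ⟨fun i => ∑ u : s, (e u : ℚ) * g (Pi.single i 1) u, fun v hv => ?_⟩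
  have h2 : ∀ u : s, ∑ i, g (Pi.single i 1) u * (c i v : ℚ) = (Pi.single (⟨v, hv⟩ : s) (1 : ℚ) : s → ℚ) u := by
    intro u
    have h3 : g (Matrix.mulVecLin M (Pi.single (⟨v, hv⟩ : s) 1)) = Pi.single (⟨v, hv⟩ : s) 1 := by
      have := LinearMap.congr_fun hg (Pi.single (⟨v, hv⟩ : s) 1)
      simpa using this
    rw [← h3]
    have h4 : Matrix.mulVecLin M (Pi.single (⟨v, hv⟩ : s) 1) =
        ∑ i, (c i v : ℚ) • (Pi.single i 1 : I → ℚ) := by
      funext j
      rw [Matrix.mulVecLin_apply, Finset.sum_apply, Finset.sum_eq_single j]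
      · simp only [Matrix.mulVec, dotProduct, M]
        rw [Finset.sum_eq_single (⟨v, hv⟩ : s)]
        · simp
        · intro w _ hw
          simp [hw]
        · intro hw
          exact absurd (Finset.mem_univ _) hw
      · intro i _ hij
        simp [hij.symm]
      · intro hj
        exact absurd (Finset.mem_univ j) hj
    rw [h4, map_sum, Finset.sum_apply]
    refine Finset.sum_congr rfl fun i _ => ?_
    rw [map_smul, Pi.smul_apply, smul_eq_mul, mul_comm]
  calc (e v : ℚ) = ∑ u : s, (e u : ℚ) * (Pi.single (⟨v, hv⟩ : s) (1 : ℚ) : s → ℚ) u := by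
        rw [Finset.sum_eq_single (⟨v, hv⟩ : s)]
        · simp
        · intro u _ hu
          simp [hu]
        · intro hu
          exact absurd (Finset.mem_univ _) hu
    _ = ∑ u : s, (e u : ℚ) * ∑ i, g (Pi.single i 1) u * (c i v : ℚ) := by
        refine Finset.sum_congr rfl fun u _ => ?_
        rw [h2 u]
    _ = ∑ i, (∑ u : s, (e u : ℚ) * g (Pi.single i 1) u) * (c i v : ℚ) := by
        simp_rw [Finset.mul_sum, Finset.sum_mul]
        rw [Finset.sum_comm]
        refine Finset.sum_congr rfl fun i _ => Finset.sum_congr rfl fun u _ => ?_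
        ring

end ICan

theorem pr_Can : StCan := by
  intro V I A _ _ _ Δ c hc e
  classical
  have h : ∀ (s : Set V) (a : A), ∃ l : I → ℚ, Δ.face s → ∀ v ∈ s,
      (e a v : ℚ) = ∑ i, l i * (c i v : ℚ) := by
    intro s a
    by_cases hs : Δ.face s
    · obtain ⟨l, hl⟩ := ICan.form c s (hc s hs) (e a)
      exact ⟨l, fun _ => hl⟩
    · exact ⟨fun _ => 0, fun h => absurd h hs⟩
  choose l hl using h
  obtain ⟨D, hD, k, hk⟩ := ICan.denom (J := Set V × A × I) (fun j => l j.1 j.2.1 j.2.2)
  refine ⟨D, hD, fun s a i => k (s, a, i), fun s hs a v hv => ?_⟩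
  have h1 := hl s a hs v hv
  have h2 : ((D : ℤ) * e a v : ℚ) = ((∑ i, k (s, a, i) * c i v : ℤ) : ℚ) := by
    rw [h1, Finset.mul_sum]
    push_cast
    refine Finset.sum_congr rfl fun i _ => ?_
    rw [← hk (s, a, i)]
    ring
  exact_mod_cast h2

end Pool.Agent.Work.MP_552024_lc.EE
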