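import Pool.Agent.Work.MP_552024_lc.EE.StmtsN

/-!
# Theorem EE, second part, item Def: the equation with finitely many solutions
-/

set_option autoImplicit false

namespace Pool.Agent.Work.MP_552024_lc.EE

open Pool.Agent.MP552024 Pool.Agent.Work.MP_552024_lc.PLS

namespace IDef

section DT

variable {α : Type}

theorem dt_congr {σ τ : ∀ K : OG, (α → K.K) → K.K} (h : DT σ) (hst : ∀ K v, σ K v = τ K v) :
    DT τ := by
  have e : σ = τ := by
    funext K v
    exact hst K v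
  rw [← e]
  exact h

theorem dt_nsmul (n : ℕ) {τ : ∀ K : OG, (α → K.K) → K.K} (h : DT τ) :
    DT (fun K v => n • τ K v) := by
  induction n with
  | zero => exact dt_congr DT.zero fun K v => (zero_nsmul _).symm
  | succ n ih => exact dt_congr (DT.add ih h) fun K v => (succ_nsmul _ _).symm

theorem dt_neg {τ : ∀ K : OG, (α → K.K) → K.K} (h : DT τ) : DT (fun K v => -τ K v) :=
  dt_congr (DT.sub DT.zero h) fun K v => zero_sub _

theorem dt_zsmul (n : ℤ) {τ : ∀ K : OG, (α → K.K) → K.K} (h : DT τ) :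
    DT (fun K v => n • τ K v) := by
  obtain ⟨k, rfl | rfl⟩ := n.eq_nat_or_neg
  · exact dt_congr (dt_nsmul k h) fun K v => (natCast_zsmul _ _).symm
  · refine dt_congr (dt_neg (dt_nsmul k h)) fun K v => ?_
    rw [neg_zsmul, natCast_zsmul]

theorem dt_sup {σ τ : ∀ K : OG, (α → K.K) → K.K} (hσ : DT σ) (hτ : DT τ) :
    DT (fun K v => σ K v ⊔ τ K v) :=
  dt_congr (DT.sub (DT.add hσ hτ) (DT.inf hσ hτ)) fun K v => by
    rw [sub_eq_iff_eq_add, add_comm (σ K v ⊔ τ K v), inf_add_sup]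

theorem dt_abs {τ : ∀ K : OG, (α → K.K) → K.K} (h : DT τ) : DT (fun K v => |τ K v|) :=
  dt_sup h (dt_neg h)

end DT

section ev

variable {G : Type} [AddCommGroup G] [Lattice G] {V : Type} {Δ : Cx V} {ev : G → (V → ℝ) → ℝ}

theorem ev_abs [IsOrderedAddMonoid G] (hc : IsChart Δ ev) (a : G) {z : V → ℝ} (hz : z ∈ Δ.Z) :
    ev |a| z = |ev a z| := by
  have h : |a| = a ⊔ -a := rfl
  rw [h, hc.sup _ _ z hz, hc.neg a hz]
  exact abs_eq_max_neg.symm

theorem ev_zsmul (hc : IsChart Δ ev) (k : ℤ) (a : G) {z : V → ℝ} (hz : z ∈ Δ.Z) :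
    ev (k • a) z = k * ev a z := by
  obtain ⟨n, rfl | rfl⟩ := k.eq_nat_or_neg
  · rw [natCast_zsmul, hc.nsmul n a hz]
    push_cast
    ring
  · rw [neg_zsmul, natCast_zsmul, hc.neg _ hz, hc.nsmul n a hz]
    push_cast
    ring

end ev

/-- the terms of `Alg2` -/
def U {S A I : Type} [Fintype A] [Fintype I] (D : ℕ) (L : S → A → I → ℤ) (s : S) (K : OG)
    (v : A ⊕ I → K.K) : K.K :=
  ∑ a, |D • v (Sum.inl a) - ∑ i, L s a i • v (Sum.inr i)|

theorem dt_U {S A I : Type} [Fintype A] [Fintype I] (D : ℕ) (L : S → A → I → ℤ) (s : S) :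
    DT (U D L s) := by
  unfold U
  refine DT.sum _ fun a => dt_abs (DT.sub (dt_nsmul D (DT.var _)) (DT.sum _ fun i => ?_))
  exact dt_zsmul _ (DT.var _)

theorem ev_U {S A I : Type} [Fintype A] [Fintype I] (D : ℕ) (L : S → A → I → ℤ) (s : S) (K : OG)
    (M : Mdl K.K) (v : A ⊕ I → K.K) {z : M.V → ℝ} (hz : z ∈ M.Δ.Z) :
    M.ev (U D L s K v) z = ∑ a, |(D : ℝ) * M.ev (v (Sum.inl a)) z -
      ∑ i, (L s a i : ℝ) * M.ev (v (Sum.inr i)) z| := by
  unfold U
  rw [M.chart.sum _ _ hz]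
  refine Finset.sum_congr rfl fun a _ => ?_
  rw [ev_abs M.chart _ hz, M.chart.sub _ _ hz, M.chart.nsmul _ _ hz, M.chart.sum _ _ hz]
  congr 2
  exact Finset.sum_congr rfl fun i _ => ev_zsmul M.chart _ _ hz

theorem U_zero {S A I : Type} [Fintype A] [Fintype I] (D : ℕ) (L : S → A → I → ℤ) (s : S) (K : OG)
    (M : Mdl K.K) (v : A ⊕ I → K.K) {z : M.V → ℝ} (hz : z ∈ M.Δ.Z) :
    M.ev (U D L s K v) z ≤ 0 ↔ ∀ a, (D : ℝ) * M.ev (v (Sum.inl a)) z =
      ∑ i, (L s a i : ℝ) * M.ev (v (Sum.inr i)) z := by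
  rw [ev_U D L s K M v hz]
  constructor
  · intro h a
    have h0 := le_antisymm h (Finset.sum_nonneg fun a _ => abs_nonneg _)
    rw [Finset.sum_eq_zero_iff_of_nonneg fun a _ => abs_nonneg _] at h0
    have h1 := abs_eq_zero.1 (h0 a (Finset.mem_univ a))
    linarith
  · intro h
    refine (Finset.sum_eq_zero fun a _ => ?_).le
    rw [h a, sub_self, abs_zero]

end IDef

/-- Item Def. -/
theorem pr_Def : StDef := by
  classical
  intro S A I _ _ _ _ D L
  refine ⟨?_, ?_⟩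
  · have h : Dfn (fun K (v : A ⊕ I → K.K) => ∀ w : K.K, (∀ s, w ≤ IDef.U D L s K v) → w ≤ 0) := by
      refine Dfn.all (Dfn.imp (Dfn.fall fun s => ?_) ?_)
      · exact Dfn.le (DT.var _) (IDef.dt_U D L s).lift
      · exact Dfn.le (DT.var _) DT.zero
    exact h
  · intro K M v
    have hA : Alg2 D L K v ↔ ∀ w : K.K, (∀ s, w ≤ IDef.U D L s K v) → w ≤ 0 := Iff.rfl
    rw [hA]
    constructor
    · intro h z hz
      have hne : (Finset.univ : Finset S).Nonempty := Finset.univ_nonempty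
      have h1 := h (Finset.univ.inf' hne fun s => IDef.U D L s K v)
        fun s => Finset.inf'_le _ (Finset.mem_univ s)
      have h2 := (M.chart.le_iff).1 h1 z hz
      rw [M.chart.zero hz] at h2
      have h3 : M.ev (Finset.univ.inf' hne fun s => IDef.U D L s K v) z =
          Finset.univ.inf' hne ((fun x => M.ev x z) ∘ fun s => IDef.U D L s K v) :=
        Finset.apply_inf'_eq_inf'_comp hne (fun x => M.ev x z) fun x y => M.chart.inf x y hz
      obtain ⟨s, _, hs⟩ := Finset.exists_mem_eq_inf' hne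
        ((fun x => M.ev x z) ∘ fun s => IDef.U D L s K v)
      rw [h3, hs] at h2
      exact ⟨s, (IDef.U_zero D L s K M v hz).1 h2⟩
    · intro h w hw
      rw [M.chart.le_iff]
      intro z hz
      rw [M.chart.zero hz]
      obtain ⟨s, hs⟩ := h z hz
      exact ((M.chart.le_iff).1 (hw s) z hz).trans ((IDef.U_zero D L s K M v hz).2 hs)

end Pool.Agent.Work.MP_552024_lc.EE
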