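import Pool.Agent.Work.MP_552024_lc.EE.StmtsN

/-!
# Theorem EE, second part, item Emb: a type of a generating tuple gives an elementary embedding
-/

set_option autoImplicit false

namespace Pool.Agent.Work.MP_552024_lc.EE

open Pool.Agent.MP552024 Pool.Agent.Work.MP_552024_lc.PLS

namespace IEmb

open FirstOrder FirstOrder.Language

/-- Quantification over a finite tuple. -/
theorem exs' {α β : Type} [Finite β] {Q : ∀ K : OG, (α ⊕ β → K.K) → Prop} (h : Dfn Q) :
    Dfn (fun K (v : α → K.K) => ∃ y : β → K.K, Q K (Sum.elim v y)) := by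
  obtain ⟨φ, hφ⟩ := h
  refine ⟨φ.iExs β, fun K v => ?_⟩
  rw [Formula.realize_iExs]
  exact exists_congr (fun i => hφ K _)

/-- Substitution of definable operations in a formula. -/
theorem subst {α β : Type} [Finite β] {σ : β → ∀ K : OG, (α → K.K) → K.K} (h : ∀ k, DT (σ k))
    (φ : L2.Formula β) :
    Dfn (fun K (v : α → K.K) => φ.Realize (fun k => σ k K v)) := by
  have h1 : Dfn (fun K (w : α ⊕ β → K.K) =>
      (∀ k, w (Sum.inr k) = σ k K (fun a => w (Sum.inl a))) ∧ φ.Realize (fun k => w (Sum.inr k))) := by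
    refine Dfn.and (Dfn.fall fun k => ?_) ?_
    · exact Dfn.comap (h k) (Sum.map id (fun _ => k) : α ⊕ Unit → α ⊕ β)
    · refine ⟨φ.relabel (Sum.inr : β → α ⊕ β), fun K w => ?_⟩
      rw [Formula.realize_relabel]
      rfl
  refine (exs' h1).congr (fun K v => ?_)
  constructor
  · rintro ⟨y, h2, h3⟩
    have h4 : y = fun k => σ k K v := funext h2
    rw [← h4]
    exact h3
  · intro h3
    exact ⟨fun k => σ k K v, fun k => rfl, h3⟩

/-- Every element is the value of a definable operation at a generating tuple. -/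
theorem op_of_gen {G : Type} [AddCommGroup G] [Lattice G] [IsOrderedAddMonoid G] {A : Type}
    {a : A → G} (hg : Gen a) (x : G) :
    ∃ τ : ∀ K : OG, (A → K.K) → K.K, DT τ ∧ τ ⟨G⟩ a = x := by
  refine hg {x | ∃ τ : ∀ K : OG, (A → K.K) → K.K, DT τ ∧ τ ⟨G⟩ a = x} ?_ ?_ ?_ x
  · intro i
    exact ⟨fun _ v => v i, DT.var i, rfl⟩
  · exact ⟨fun _ _ => 0, DT.zero, rfl⟩
  · rintro x ⟨σ, hσ, rfl⟩ y ⟨τ, hτ, rfl⟩
    refine ⟨⟨_, DT.add hσ hτ, rfl⟩, ⟨_, DT.sub DT.zero hσ, ?_⟩, ⟨_, DT.sub (DT.add hσ hτ)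
      (DT.inf hσ hτ), ?_⟩, ⟨_, DT.inf hσ hτ, rfl⟩⟩
    · exact zero_sub _
    · exact sub_eq_of_eq_add' (inf_add_sup _ _).symm

end IEmb

theorem pr_Emb : StEmb := by
  intro G H _ _ _ _ _ _ A _ a b hgen hT
  choose τ hτ hτx using fun x => IEmb.op_of_gen hgen x
  letI : L2.Structure G := str G
  letI : L2.Structure H := str H
  refine ⟨⟨fun x => τ x ⟨H⟩ b, ?_⟩, ?_⟩
  · intro n φ x
    have h1 := hT _ (IEmb.subst (fun k => hτ (x k)) φ)
    have h2 : (fun k => τ (x k) ⟨G⟩ a) = x := funext fun k => hτx (x k)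
    have h3 : φ.Realize (fun k => τ (x k) ⟨G⟩ a) ↔ φ.Realize (fun k => τ (x k) ⟨H⟩ b) := h1
    rw [h2] at h3
    exact h3.symm
  · intro i
    have h1 : Dfn (fun K (v : A → K.K) => v i = τ (a i) K v) :=
      Dfn.comap (hτ (a i)) (Sum.elim id (fun _ => i) : A ⊕ Unit → A)
    exact ((hT _ h1).1 (hτx (a i)).symm).symm

end Pool.Agent.Work.MP_552024_lc.EE
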