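import Pool.Agent.Work.MP_552024_lc.EE.StmtsN

set_option autoImplicit false

/-! Item Hats: the hat functions generate. -/

namespace Pool.Agent.Work.MP_552024_lc.EE

open Pool.Agent.MP552024 Pool.Agent.Work.MP_552024_lc.PLS

theorem pr_Hats : StHats := by
  intro G _ _ _ M a ha T hT h0 hcl x
  have key : ∀ F : (M.V → ℝ) → ℝ, F ∈ LP M.V → ∃ y ∈ T, ∀ z ∈ M.Δ.Z, M.ev y z = F z := by
    intro F hF
    refine LP_ind (P := fun F => ∃ y ∈ T, ∀ z ∈ M.Δ.Z, M.ev y z = F z) hF ?_ ?_ ?_ ?_ ?_ ?_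
    · intro i
      exact ⟨a i, hT i, ha i⟩
    · exact ⟨0, h0, fun z hz => M.chart.zero hz⟩
    · rintro A B ⟨y, hy, hy'⟩ ⟨w, hw, hw'⟩
      exact ⟨y + w, (hcl y hy w hw).1, fun z hz => by rw [M.chart.add _ _ z hz, hy' z hz, hw' z hz]⟩
    · rintro A ⟨y, hy, hy'⟩
      exact ⟨-y, (hcl y hy y hy).2.1, fun z hz => by rw [M.chart.neg _ hz, hy' z hz]⟩
    · rintro A B ⟨y, hy, hy'⟩ ⟨w, hw, hw'⟩
      exact ⟨y ⊔ w, (hcl y hy w hw).2.2.1,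
        fun z hz => by rw [M.chart.sup _ _ z hz, hy' z hz, hw' z hz]⟩
    · rintro A B ⟨y, hy, hy'⟩ ⟨w, hw, hw'⟩
      exact ⟨y ⊓ w, (hcl y hy w hw).2.2.2,
        fun z hz => by rw [M.chart.inf _ _ hz, hy' z hz, hw' z hz]⟩
  obtain ⟨F, hF, hx⟩ := M.chart.mem x
  obtain ⟨y, hy, hy'⟩ := key F hF
  have : x = y := M.chart.ext fun z hz => by rw [hx z hz, hy' z hz]
  rw [this]
  exact hy

end Pool.Agent.Work.MP_552024_lc.EE
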