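import Pool.Agent.Work.MP_552024_lc.EE.StmtsN

/-!
# MP_552024_lc, block EE, item Min: an isolated type over the parameters is realized
-/

set_option autoImplicit false

namespace Pool.Agent.Work.MP_552024_lc.EE

open Pool.Agent.MP552024 Pool.Agent.Work.MP_552024_lc.PLS FirstOrder FirstOrder.Language

namespace IMin

/-- existential quantification over the left variables -/
theorem exsL {A I : Type} [Finite A] {P : ∀ K : OG, (A ⊕ I → K.K) → Prop} (h : Dfn P) :
    Dfn (fun K (v : I → K.K) => ∃ x : A → K.K, P K (Sum.elim x v)) := by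
  obtain ⟨φ, hφ⟩ := h
  refine ⟨(φ.relabel (Sum.swap : A ⊕ I → I ⊕ A)).iExs A, fun K v => ?_⟩
  rw [Formula.realize_iExs]
  refine exists_congr (fun i => ?_)
  rw [Formula.realize_relabel]
  have e : (Sum.elim v i ∘ Sum.swap : A ⊕ I → K.K) = Sum.elim i v := by
    funext x
    rcases x with x | x <;> rfl
  rw [e]
  exact hφ K _

end IMin

open IMin

theorem pr_Min : StMin := by
  intro A I _ _ G H a g h hT P hP hPa hfin
  classical
  have hex : ∃ n : ℕ, ∃ P : ∀ K : OG, (A ⊕ I → K.K) → Prop, Dfn P ∧ P G (Sum.elim a g) ∧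
      {x : A → G.K | P G (Sum.elim x g)}.Finite ∧
      {x : A → G.K | P G (Sum.elim x g)}.ncard = n := ⟨_, P, hP, hPa, hfin, rfl⟩
  obtain ⟨P0, h1, h2, h3, h4⟩ := Nat.find_spec hex
  obtain ⟨b, hb⟩ : ∃ b : A → H.K, P0 H (Sum.elim b h) := (hT _ (exsL h1)).1 ⟨a, h2⟩
  have key : ∀ Q : ∀ K : OG, (A ⊕ I → K.K) → Prop, Dfn Q → Q G (Sum.elim a g) →
      Q H (Sum.elim b h) := by
    intro Q hQ hQa
    have h6 : ∀ x : A → G.K, P0 G (Sum.elim x g) → Q G (Sum.elim x g) := by
      intro x hx1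
      by_contra hx2
      have hss : {x : A → G.K | P0 G (Sum.elim x g) ∧ Q G (Sum.elim x g)} ⊂
          {x : A → G.K | P0 G (Sum.elim x g)} := by
        refine ⟨fun y hy => hy.1, fun hc => ?_⟩
        exact hx2 (hc hx1).2
      have h7 := Set.ncard_lt_ncard hss h3
      have h8 : Nat.find hex ≤
          {x : A → G.K | P0 G (Sum.elim x g) ∧ Q G (Sum.elim x g)}.ncard :=
        Nat.find_min' hex ⟨fun K v => P0 K v ∧ Q K v, h1.and hQ, ⟨h2, hQa⟩,
          h3.subset hss.1, rfl⟩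
      omega
    by_contra hn
    obtain ⟨x, hx1, hx2⟩ := (hT _ (exsL (h1.and hQ.not))).2 ⟨b, hb, hn⟩
    exact hx2 (h6 x hx1)
  refine ⟨b, fun Q hQ => ⟨key Q hQ, fun hb' => ?_⟩⟩
  by_contra hn
  exact key _ hQ.not hn hb'

end Pool.Agent.Work.MP_552024_lc.EE
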