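import Pool.Agent.Work.MP_552024_lc.EE.StmtsN
import Pool.Agent.Work.MP_552024_lc.B7
import Pool.Agent.Work.MP_552024_lc.B9

/-!
# Theorem EE, item Sol: finitely many solutions
-/

set_option autoImplicit false

namespace Pool.Agent.Work.MP_552024_lc.EE

open Pool.Agent.MP552024 Pool.Agent.Work.MP_552024_lc.PLS

namespace ISol

/-- the open cone of `τ` -/
def Op {V : Type} (τ : Set V) : Set (V → ℝ) := {z | (∀ v ∈ τ, 0 < z v) ∧ ∀ v ∉ τ, z v = 0}

theorem Op_convex {V : Type} (τ : Set V) : Convex ℝ (Op τ) := by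
  intro x hx y hy a b ha hb hab
  refine ⟨fun v hv => ?_, fun v hv => ?_⟩
  · have h1 := hx.1 v hv
    have h2 := hy.1 v hv
    show 0 < a * x v + b * y v
    rcases ha.eq_or_lt with h | h
    · have hb1 : b = 1 := by linarith
      rw [← h, hb1]; simpa using h2
    · have h3 : 0 < a * x v := mul_pos h h1
      have h4 : 0 ≤ b * y v := mul_nonneg hb h2.le
      linarith
  · show a * x v + b * y v = 0
    rw [hx.2 v hv, hy.2 v hv]; ring

open Classical in
theorem Op_nonempty {V : Type} (τ : Set V) : (Op τ).Nonempty :=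
  ⟨fun v => if v ∈ τ then 1 else 0, fun v hv => by simp [hv], fun v hv => by simp [hv]⟩

theorem Op_Z {V : Type} {Δ : Cx V} {τ : Set V} (hτ : Δ.face τ) {z : V → ℝ} (hz : z ∈ Op τ) :
    z ∈ Δ.Z := by
  refine Cx.mem_Z (fun v => ?_) τ hτ (fun v hv => ?_)
  · by_cases h : v ∈ τ
    · exact (hz.1 v h).le
    · exact (hz.2 v h).ge
  · by_contra h
    exact hv (hz.2 v h)

/-- linear with linear positive part: no opposite signs on an edge -/
theorem no_opp {G : Type} [AddCommGroup G] [Lattice G] {N : Mdl G} {u : G} {c c' : N.V → ℤ}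
    (hc : N.Lin u c) (hc' : N.Lin (u ⊔ 0) c') {i j : N.V} (hf : N.Δ.face {i, j}) (hi : 0 < c i)
    (hj : c j < 0) : False := by
  classical
  have hij : i ≠ j := by
    rintro rfl
    omega
  have hval : ∀ g : G, ∀ d : N.V → ℤ, N.Lin g d →
      N.ev g (fun l => 1 * pt i l + 1 * pt j l) = (d i : ℝ) + d j := by
    intro g d hd
    rw [hd _ (Cx.pair_mem hf zero_le_one zero_le_one)]
    have h1 : ∀ l, (d l : ℝ) * (1 * pt i l + 1 * pt j l) = (d l : ℝ) * pt i l + (d l : ℝ) * pt j l := by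
      intro l; ring
    rw [Finset.sum_congr rfl (fun l _ => h1 l), Finset.sum_add_distrib]
    have h2 : ∀ k, ∑ l, (d l : ℝ) * pt k l = d k := by
      intro k
      rw [Finset.sum_eq_single k]
      · rw [pt_self, mul_one]
      · intro l _ hl
        rw [pt_ne hl, mul_zero]
      · intro h; exact absurd (Finset.mem_univ _) h
    rw [h2, h2]
  have hz := Cx.pair_mem (Δ := N.Δ) hf (zero_le_one (α := ℝ)) (zero_le_one (α := ℝ))
  have h0 : ∀ z ∈ N.Δ.Z, N.ev (u ⊔ 0) z = max (N.ev u z) 0 := by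
    intro z hz
    rw [N.chart.sup u 0 z hz, N.chart.zero hz]
  have hp : ∀ k, (c' k : ℝ) = max (c k : ℝ) 0 := by
    intro k
    rw [← hc'.pt k, ← hc.pt k]
    exact h0 _ (Cx.pt_mem k)
  have h1 := h0 _ hz
  rw [hval _ _ hc', hval _ _ hc, hp i, hp j] at h1
  have hi' : (0 : ℝ) < c i := by exact_mod_cast hi
  have hj' : (c j : ℝ) < 0 := by exact_mod_cast hj
  rw [max_eq_left hi'.le, max_eq_right hj'.le] at h1
  rcases le_total ((c i : ℝ) + c j) 0 with h | h
  · rw [max_eq_right h] at h1; linarith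
  · rw [max_eq_left h] at h1; linarith

/-- a linear element which vanishes at a point of the open cone vanishes on it -/
theorem vanish {G : Type} [AddCommGroup G] [Lattice G] {N : Mdl G} {u : G} {c c' : N.V → ℤ}
    (hc : N.Lin u c) (hc' : N.Lin (u ⊔ 0) c') {τ : Set N.V} (hτ : N.Δ.face τ) {z z' : N.V → ℝ}
    (hz : z ∈ Op τ) (hz' : z' ∈ Op τ) (h : N.ev u z = 0) : N.ev u z' = 0 := by
  classical
  have hopp : ∀ i ∈ τ, ∀ j ∈ τ, 0 < c i → ¬ c j < 0 := by
    intro i hi j hj h1 h2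
    refine no_opp hc hc' (N.Δ.down τ _ ?_ hτ) h1 h2
    rintro v (rfl | hv)
    · exact hi
    · rw [Set.mem_singleton_iff.1 hv]; exact hj
  rw [hc z (Op_Z hτ hz)] at h
  have hc0 : ∀ i ∈ τ, c i = 0 := by
    by_cases hpos : ∃ i ∈ τ, 0 < c i
    · exfalso
      obtain ⟨i, hi, hci⟩ := hpos
      have h1 : ∀ j ∈ Finset.univ, 0 ≤ (c j : ℝ) * z j := by
        intro j _
        by_cases hj : j ∈ τ
        · have h2 : (0 : ℝ) ≤ c j := by
            have := hopp i hi j hj hci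
            exact_mod_cast not_lt.1 this
          exact mul_nonneg h2 (hz.1 j hj).le
        · rw [hz.2 j hj, mul_zero]
      have h2 := (Finset.sum_eq_zero_iff_of_nonneg h1).1 h i (Finset.mem_univ i)
      have h3 : (0 : ℝ) < (c i : ℝ) * z i := mul_pos (by exact_mod_cast hci) (hz.1 i hi)
      linarith
    · intro i hi
      have h1 : ∀ j ∈ Finset.univ, (c j : ℝ) * z j ≤ 0 := by
        intro j _
        by_cases hj : j ∈ τ
        · have h2 : (c j : ℝ) ≤ 0 := by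
            have : ¬ 0 < c j := fun h => hpos ⟨j, hj, h⟩
            exact_mod_cast not_lt.1 this
          exact mul_nonpos_of_nonpos_of_nonneg h2 (hz.1 j hj).le
        · rw [hz.2 j hj, mul_zero]
      have h2 := (Finset.sum_eq_zero_iff_of_nonpos h1).1 h i (Finset.mem_univ i)
      rcases mul_eq_zero.1 h2 with h3 | h3
      · exact_mod_cast h3
      · exact absurd h3 (hz.1 i hi).ne'
  rw [hc z' (Op_Z hτ hz')]
  refine Finset.sum_eq_zero (fun i _ => ?_)
  by_cases hi : i ∈ τ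
  · rw [hc0 i hi]; simp
  · rw [hz'.2 i hi, mul_zero]

/-- on an open cone a solution follows one index -/
theorem one_index {G : Type} [AddCommGroup G] [Lattice G] (N : Mdl G)
    (S A : Type) [Finite S] [Finite A] (D : ℕ) (y : S → A → G)
    (hag : ∀ s s' a, ∀ τ : Set N.V, N.Δ.face τ → ∀ z ∈ Op τ, ∀ z' ∈ Op τ,
      N.ev (y s a) z = N.ev (y s' a) z → N.ev (y s a) z' = N.ev (y s' a) z')
    (x : A → G) (hx : ∀ z ∈ N.Δ.Z, ∃ s, ∀ a, (D : ℝ) * N.ev (x a) z = N.ev (y s a) z)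
    (τ : Set N.V) (hτ : N.Δ.face τ) :
    ∃ s, ∀ z ∈ Op τ, ∀ a, (D : ℝ) * N.ev (x a) z = N.ev (y s a) z := by
  classical
  obtain ⟨z0, hz0⟩ := Op_nonempty τ
  obtain ⟨s0, hs0⟩ := hx z0 (Op_Z hτ hz0)
  refine ⟨s0, ?_⟩
  choose b hb hb' using fun a => N.chart.mem (x a)
  choose w hw hw' using fun s a => N.chart.mem (y s a)
  set t : S → Set (N.V → ℝ) := fun s => {z | ∀ a, (D : ℝ) * b a z = w s a z} with ht
  have hmem : ∀ s, ∀ z ∈ Op τ, z ∈ t s ↔ ∀ a, (D : ℝ) * N.ev (x a) z = N.ev (y s a) z := by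
    intro s z hz
    have hzZ := Op_Z hτ hz
    show (∀ a, (D : ℝ) * b a z = w s a z) ↔ _
    refine forall_congr' (fun a => ?_)
    rw [hb' a z hzZ, hw' s a z hzZ]
  have hcl : ∀ s, IsClosed (t s) := by
    intro s
    have : t s = ⋂ a, {z | (D : ℝ) * b a z = w s a z} := by
      ext z; simp [ht]
    rw [this]
    exact isClosed_iInter (fun a =>
      isClosed_eq (continuous_const.mul (LP_cont (hb a))) (LP_cont (hw s a)))
  set B : Set S := {s | ¬ ∀ a, N.ev (y s a) z0 = N.ev (y s0 a) z0} with hB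
  set t' : Set (N.V → ℝ) := ⋃ s ∈ B, t s with ht'
  have hcl' : IsClosed t' := (Set.toFinite B).isClosed_biUnion (fun s _ => hcl s)
  have hcov : Op τ ⊆ t s0 ∪ t' := by
    intro z hz
    obtain ⟨s, hs⟩ := hx z (Op_Z hτ hz)
    by_cases hsB : ∀ a, N.ev (y s a) z0 = N.ev (y s0 a) z0
    · left
      refine (hmem s0 z hz).2 (fun a => ?_)
      rw [hs a]
      exact hag s s0 a τ hτ z0 hz0 z hz (hsB a)
    · right
      exact Set.mem_biUnion (show s ∈ B from hsB) ((hmem s z hz).2 hs)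
  have hpre : IsPreconnected (Op τ) := (Op_convex τ).isPreconnected
  have hempty : ¬ (Op τ ∩ t').Nonempty := by
    intro hne
    obtain ⟨z1, hz1, h1, h2⟩ := (isPreconnected_closed_iff.1 hpre) (t s0) t' (hcl s0) hcl' hcov
      ⟨z0, hz0, (hmem s0 z0 hz0).2 hs0⟩ hne
    obtain ⟨s, hsB, hs⟩ := Set.mem_iUnion₂.1 h2
    apply hsB
    intro a
    refine hag s s0 a τ hτ z1 hz1 z0 hz0 ?_
    rw [← (hmem s z1 hz1).1 hs a, ← (hmem s0 z1 hz1).1 h1 a]
  intro z hz
  rcases hcov hz with h | h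
  · exact (hmem s0 z hz).1 h
  · exact absurd ⟨z, hz, h⟩ hempty

end ISol

open ISol in
/-- Finitely many solutions. -/
theorem pr_Sol : StSol := by
  intro G _ _ _ M S A _ _ D hD y
  classical
  obtain ⟨N, hMN, hN⟩ := prfB9 prfB7 G M (Bool × S × S × A)
    (fun t => cond t.1 (y t.2.1 t.2.2.2 - y t.2.2.1 t.2.2.2)
      ((y t.2.1 t.2.2.2 - y t.2.2.1 t.2.2.2) ⊔ 0))
  obtain ⟨T, hT1, _, hT3⟩ := hMN.map
  -- agreement of two indices
  have hag : ∀ s s' a, ∀ τ : Set N.V, N.Δ.face τ → ∀ z ∈ Op τ, ∀ z' ∈ Op τ,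
      N.ev (y s a) z = N.ev (y s' a) z → N.ev (y s a) z' = N.ev (y s' a) z' := by
    intro s s' a τ hτ z hz z' hz' h
    obtain ⟨c, hc⟩ := hN (true, s, s', a)
    obtain ⟨c', hc'⟩ := hN (false, s, s', a)
    have hc1 : N.Lin (y s a - y s' a) c := hc
    have hc2 : N.Lin ((y s a - y s' a) ⊔ 0) c' := hc'
    have h1 := vanish hc1 hc2 hτ hz hz' (by
      rw [N.chart.sub _ _ (Op_Z hτ hz), h, sub_self])
    rw [N.chart.sub _ _ (Op_Z hτ hz')] at h1
    linarith
  set Sol : Set (A → G) :=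
    {x | ∀ z ∈ M.Δ.Z, ∃ s, ∀ a, (D : ℝ) * M.ev (x a) z = M.ev (y s a) z} with hSol
  have hNx : ∀ x : Sol, ∀ z ∈ N.Δ.Z, ∃ s, ∀ a, (D : ℝ) * N.ev (x.1 a) z = N.ev (y s a) z := by
    intro x z hz
    obtain ⟨s, hs⟩ := x.2 (T z) (hT1 z hz)
    refine ⟨s, fun a => ?_⟩
    rw [hT3 _ z hz, hT3 _ z hz]
    exact hs a
  have hex : ∀ x : Sol, ∃ σ : Set N.V → S, ∀ τ, N.Δ.face τ → ∀ z ∈ Op τ, ∀ a,
      (D : ℝ) * N.ev (x.1 a) z = N.ev (y (σ τ) a) z := by
    intro x
    obtain ⟨s0, _⟩ := hNx x _ Cx.zero_mem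
    have : ∀ τ : Set N.V, ∃ s, N.Δ.face τ → ∀ z ∈ Op τ, ∀ a,
        (D : ℝ) * N.ev (x.1 a) z = N.ev (y s a) z := by
      intro τ
      by_cases hτ : N.Δ.face τ
      · obtain ⟨s, hs⟩ := one_index N S A D y hag x.1 (hNx x) τ hτ
        exact ⟨s, fun _ => hs⟩
      · exact ⟨s0, fun h => absurd h hτ⟩
    choose σ hσ using this
    exact ⟨σ, hσ⟩
  choose σ hσ using hex
  have hinj : Function.Injective σ := by
    intro x x' h
    apply Subtype.ext
    funext a
    refine N.chart.ext (fun z hz => ?_)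
    have hO : z ∈ Op {i | z i ≠ 0} := by
      refine ⟨fun v hv => lt_of_le_of_ne (hz.1 v) (Ne.symm hv), fun v hv => ?_⟩
      by_contra hcon
      exact hv hcon
    have h1 := hσ x _ hz.2 z hO a
    have h2 := hσ x' _ hz.2 z hO a
    rw [← h] at h2
    have hD' : (D : ℝ) ≠ 0 := by exact_mod_cast hD.ne'
    exact mul_left_cancel₀ hD' (h1.trans h2.symm)
  have hfin : Finite Sol := Finite.of_injective σ hinj
  exact Set.toFinite Sol

end Pool.Agent.Work.MP_552024_lc.EE
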