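import Pool.Agent.Work.MP_552024_lc.EE.StmtsN

/-!
# Theorem EE, second part, item Vdm (helper78)
-/

set_option autoImplicit false

namespace Pool.Agent.Work.MP_552024_lc.EE

open Pool.Agent.MP552024 Pool.Agent.Work.MP_552024_lc.PLS

namespace IVdm

open Polynomial Finset

theorem key {V : Type} [Fintype V] (t : V → ℚ) (ht : Function.Injective t) (d : ℕ) (S : Finset V)
    (hS : S.card ≤ d) (r : V → ℚ) (hr : ∀ v ∉ S, r v = 0)
    (h : ∀ i < d, ∑ v, t v ^ i * r v = 0) : r = 0 := by
  classical
  funext v0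
  rw [Pi.zero_apply]
  by_cases hv0 : v0 ∈ S
  · set p : ℚ[X] := ∏ v ∈ S.erase v0, (X - C (t v)) with hp
    have hdeg : p.natDegree < d := by
      rw [hp, natDegree_prod_of_monic _ _ fun v _ => monic_X_sub_C _]
      simp only [natDegree_X_sub_C, Finset.sum_const, smul_eq_mul, mul_one]
      have h1 := Finset.card_erase_lt_of_mem hv0
      omega
    have h1 : ∑ v, p.eval (t v) * r v = 0 := by
      have h2 : ∀ v, p.eval (t v) * r v = ∑ i ∈ range d, p.coeff i * (t v ^ i * r v) := by
        intro v
        rw [eval_eq_sum_range' hdeg, Finset.sum_mul]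
        exact Finset.sum_congr rfl fun i _ => mul_assoc _ _ _
      rw [Finset.sum_congr rfl fun v _ => h2 v, Finset.sum_comm]
      refine Finset.sum_eq_zero fun i hi => ?_
      rw [← Finset.mul_sum, h i (Finset.mem_range.1 hi), mul_zero]
    rw [Finset.sum_eq_single v0] at h1
    · rcases mul_eq_zero.1 h1 with h2 | h2
      · exfalso
        rw [hp, eval_prod, Finset.prod_eq_zero_iff] at h2
        obtain ⟨v, hv, h3⟩ := h2
        rw [eval_sub, eval_X, eval_C, sub_eq_zero] at h3
        exact (Finset.mem_erase.1 hv).1 (ht h3).symm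
      · exact h2
    · intro v _ hv
      by_cases hvS : v ∈ S
      · have h2 : p.eval (t v) = 0 := by
          rw [hp, eval_prod]
          refine Finset.prod_eq_zero (Finset.mem_erase.2 ⟨hv, hvS⟩) ?_
          rw [eval_sub, eval_X, eval_C, sub_self]
        rw [h2, zero_mul]
      · rw [hr v hvS, mul_zero]
    · intro h2
      exact absurd (Finset.mem_univ v0) h2
  · exact hr v0 hv0

end IVdm

theorem pr_Vdm : StVdm := by
  classical
  intro V _ Δ d hΔ
  refine ⟨fun i v => ((Fintype.equivFin V v : ℕ) : ℤ) ^ (i : ℕ), ?_⟩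
  intro s hs r hr hK
  have hcoe : ((s.toFinset : Finset V) : Set V) = s := Set.coe_toFinset s
  refine IVdm.key (fun v => ((Fintype.equivFin V v : ℕ) : ℚ)) ?_ d s.toFinset ?_ r ?_ ?_
  · intro v w hvw
    have h1 : (Fintype.equivFin V v : ℕ) = (Fintype.equivFin V w : ℕ) := Nat.cast_injective hvw
    exact (Fintype.equivFin V).injective (Fin.ext h1)
  · apply hΔ
    rw [hcoe]
    exact hs
  · intro v hv
    exact hr v fun h => hv (Set.mem_toFinset.2 h)
  · intro i hi
    have h1 := congrFun hK ⟨i, hi⟩
    unfold KQ at h1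
    rw [Pi.zero_apply] at h1
    rw [← h1]
    refine Finset.sum_congr rfl fun v _ => ?_
    push_cast
    rfl

end Pool.Agent.Work.MP_552024_lc.EE
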