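import Pool.Agent.Work.MP_552024_lc.EE.All
import Pool.Agent.Work.MP_552024_lc.EE.FinN
import Pool.Agent.Work.MP_552024_lc.EE.I_Vdm
import Pool.Agent.Work.MP_552024_lc.EE.I_Can
import Pool.Agent.Work.MP_552024_lc.EE.I_Hats
import Pool.Agent.Work.MP_552024_lc.EE.I_Def
import Pool.Agent.Work.MP_552024_lc.EE.I_Sol
import Pool.Agent.Work.MP_552024_lc.EE.I_Min
import Pool.Agent.Work.MP_552024_lc.EE.I_Emb

/-!
# Theorem EE, second part, assembled
-/

set_option autoImplicit false

namespace Pool.Agent.Work.MP_552024_lc.EE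

/-- a group of dimension at most `d` is determined by the type of a suitable `d`-tuple -/
theorem all_N : StN := pr_N all_Fin pr_Hom pr_Vdm pr_Can pr_Hats pr_Def pr_Sol pr_Min pr_Emb

end Pool.Agent.Work.MP_552024_lc.EE
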