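import Pool.Agent.Work.MP_552024_lc.EE.Stmts

/-!
# Theorem EE: the final assembly
-/

set_option autoImplicit false

namespace Pool.Agent.Work.MP_552024_lc.EE

open Pool.Agent.MP552024 Pool.Agent.Work.MP_552024_lc.PLS

theorem pr_Fin (hTV : StTV) (hHom : StHom) (hIm : StIm) (hA : StA) (hB : StB) (hC : StC)
    (hR : StR) (hPair : StPair) (hAsm : StAsm) : StFin := by
  intro G H _ _ _ _ _ _ hfg n f hf ψ hP j
  obtain ⟨S, hS, hgen⟩ := hfg
  have hlin : S_linall := prfB9 prfB7
  have hq : S_quot := prfC2 prfC1 prfC1b hlin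
  obtain ⟨M₀, t, ht⟩ := hq n f hf H ψ hP
  intro h
  obtain ⟨j1, j2, j3, j4, j5, _⟩ := hHom G H j
  have : Finite S := hS
  have : Fintype S := Fintype.ofFinite S
  -- a model on which everything is linear
  obtain ⟨M, _, hM⟩ := hlin H M₀ (Option S) (fun o => o.elim h (fun g => j g.1))
  obtain ⟨d, hd⟩ := hM none
  have hc : ∀ g : S, ∃ c : M.V → ℤ, M.Lin (j g.1) c := fun g => hM (some g)
  choose c hc using hc
  have himg : Img M c (Set.range j) := by
    refine hIm G H j j1 j2 j3 j4 j5 S (fun g => g.1) ?_ M c hc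
    intro T hT h0 hT2 x
    have := hgen T (fun g hg => hT ⟨g, hg⟩) h0 hT2
    rw [this]
    exact Set.mem_univ x
  have htv : TVp (Set.range j) := hTV G H j
  have a := hA H M S c _ himg htv
  have b := hB H M S c _ himg htv a
  have cc := hC H M S c _ himg htv a b
  have r := hR H M S c cc
  obtain ⟨F, hF, hFh⟩ := hAsm M.V S M.Δ (KR c) (M.ev h) (fun s t hs ht =>
    hPair H M S c b r h d hd s t hs ht)
  obtain ⟨x, ⟨g, rfl⟩, hx⟩ := himg.sur F hF
  exact ⟨g, M.chart.ext (fun z hz => by rw [hx z hz, hFh z hz])⟩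

end Pool.Agent.Work.MP_552024_lc.EE
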