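import Pool.Agent.Work.MP_552024_lc.EE.Stmts

/-!
# Block EE, item P: separation of a face
-/

set_option autoImplicit false

namespace Pool.Agent.Work.MP_552024_lc.EE

open Pool.Agent.MP552024 Pool.Agent.Work.MP_552024_lc.PLS

namespace IP

/-- the integral left inverse on real points -/
def RR {V I : Type} [Fintype I] (R : V → I → ℤ) (y : I → ℝ) : V → ℝ :=
  fun v => ∑ i, (R v i : ℝ) * y i

/-- the separating function -/
noncomputable def PF {V I : Type} [Fintype V] [Fintype I] (c : I → V → ℤ) (R : V → I → ℤ)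
    (y : I → ℝ) : ℝ :=
  (∑ i, max (KR c (RR R y) i - y i) (-(KR c (RR R y) i - y i))) +
    ∑ v, max 0 (-(RR R y v))

theorem RR_mem {V I : Type} [Fintype I] (R : V → I → ℤ) (v : V) :
    (fun y : I → ℝ => RR R y v) ∈ LP I := LP_lin (R v)

theorem KRR_mem {V I : Type} [Fintype V] [Fintype I] (c : I → V → ℤ) (R : V → I → ℤ) (i : I) :
    (fun y : I → ℝ => KR c (RR R y) i - y i) ∈ LP I := by
  refine LP_sub ?_ (LP_coord i)
  exact LP_sum Finset.univ (fun v (y : I → ℝ) => (c i v : ℝ) * RR R y v)
    (fun v _ => LP_zsmul (c i v) (RR_mem R v))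

theorem PF_mem {V I : Type} [Fintype V] [Fintype I] (c : I → V → ℤ) (R : V → I → ℤ) :
    PF c R ∈ LP I := by
  have h1 : (fun y : I → ℝ => ∑ i, max (KR c (RR R y) i - y i) (-(KR c (RR R y) i - y i))) ∈
      LP I :=
    LP_sum Finset.univ _ (fun i _ => LP_max (KRR_mem c R i) (LP_neg (KRR_mem c R i)))
  have h2 : (fun y : I → ℝ => ∑ v, max 0 (-(RR R y v))) ∈ LP I :=
    LP_sum Finset.univ _ (fun v _ => LP_max LP_zero (LP_neg (RR_mem R v)))
  exact LP_add h1 h2

theorem max_neg_nonneg (a : ℝ) : 0 ≤ max a (-a) := by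
  rcases le_total 0 a with h | h
  · exact h.trans (le_max_left _ _)
  · exact (neg_nonneg.2 h).trans (le_max_right _ _)

theorem PF_nonneg {V I : Type} [Fintype V] [Fintype I] (c : I → V → ℤ) (R : V → I → ℤ)
    (y : I → ℝ) : 0 ≤ PF c R y :=
  add_nonneg (Finset.sum_nonneg fun _ _ => max_neg_nonneg _)
    (Finset.sum_nonneg fun _ _ => le_max_left _ _)

theorem RR_KR {V I : Type} [Fintype V] [Fintype I] {c : I → V → ℤ} {t : Set V}
    {R : V → I → ℤ} (hR : LInv c t R) (z : V → ℝ) (hz : {v | z v ≠ 0} ⊆ t) :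
    RR R (KR c z) = z := by
  classical
  funext v
  have h0 : ∀ u, u ∉ t → z u = 0 := by
    intro u hu
    by_contra h
    exact hu (hz h)
  unfold RR KR
  have h1 : ∑ i, (R v i : ℝ) * ∑ u, (c i u : ℝ) * z u =
      ∑ u, ((∑ i, R v i * c i u : ℤ) : ℝ) * z u := by
    simp only [Finset.mul_sum]
    rw [Finset.sum_comm]
    refine Finset.sum_congr rfl fun u _ => ?_
    push_cast
    rw [Finset.sum_mul]
    refine Finset.sum_congr rfl fun i _ => ?_
    ring
  rw [h1]
  by_cases hv : v ∈ t
  · rw [Finset.sum_eq_single v]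
    · rw [hR.one v hv]
      simp
    · intro u _ huv
      by_cases hu : u ∈ t
      · rw [hR.off v hv u hu (Ne.symm huv)]
        simp
      · rw [h0 u hu, mul_zero]
    · intro h
      exact absurd (Finset.mem_univ _) h
  · rw [h0 v hv]
    refine Finset.sum_eq_zero fun u _ => ?_
    have : ∑ i, R v i * c i u = 0 := Finset.sum_eq_zero fun i _ => by rw [hR.out v hv i, zero_mul]
    rw [this]
    simp

theorem PF_zero {V I : Type} [Fintype V] [Fintype I] {c : I → V → ℤ} {R : V → I → ℤ}
    {y : I → ℝ} (h : PF c R y = 0) :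
    (∀ i, KR c (RR R y) i = y i) ∧ ∀ v, 0 ≤ RR R y v := by
  unfold PF at h
  have a1 : 0 ≤ ∑ i, max (KR c (RR R y) i - y i) (-(KR c (RR R y) i - y i)) :=
    Finset.sum_nonneg fun _ _ => max_neg_nonneg _
  have a2 : 0 ≤ ∑ v, max 0 (-(RR R y v)) := Finset.sum_nonneg fun _ _ => le_max_left _ _
  have b1 : ∑ i, max (KR c (RR R y) i - y i) (-(KR c (RR R y) i - y i)) = 0 := by linarith
  have b2 : ∑ v, max 0 (-(RR R y v)) = 0 := by linarith
  rw [Finset.sum_eq_zero_iff_of_nonneg fun _ _ => max_neg_nonneg _] at b1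
  rw [Finset.sum_eq_zero_iff_of_nonneg fun _ _ => le_max_left _ _] at b2
  constructor
  · intro i
    have h1 := b1 i (Finset.mem_univ _)
    have h2 := le_max_left (KR c (RR R y) i - y i) (-(KR c (RR R y) i - y i))
    have h3 := le_max_right (KR c (RR R y) i - y i) (-(KR c (RR R y) i - y i))
    linarith
  · intro v
    have h1 := b2 v (Finset.mem_univ _)
    have h2 := le_max_right 0 (-(RR R y v))
    linarith

end IP

theorem pr_P : StP := by
  intro H _ _ _ M I _ c hinj t ht R hR
  refine ⟨IP.PF c R, IP.PF_mem c R, IP.PF_nonneg c R, ?_, ?_⟩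
  · intro z hz hzt
    unfold IP.PF
    rw [IP.RR_KR hR z hzt]
    have h1 : ∑ i, max (KR c z i - KR c z i) (-(KR c z i - KR c z i)) = 0 := by simp
    have h2 : ∑ v, max 0 (-(z v)) = 0 := by
      refine Finset.sum_eq_zero fun v _ => ?_
      exact max_eq_left (neg_nonpos.2 (hz.1 v))
    rw [h1, h2, add_zero]
  · intro q hq hP
    obtain ⟨h1, h2⟩ := IP.PF_zero hP
    set q' : M.V → ℚ := fun v => ∑ i, (R v i : ℚ) * KQ c q i with hq'
    have hcast : castR q' = IP.RR R (KR c (castR q)) := by
      funext v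
      unfold castR IP.RR KR
      simp only [hq', KQ]
      push_cast
      rfl
    have hsup : ∀ v, q' v ≠ 0 → v ∈ t := by
      intro v hv
      by_contra hvt
      apply hv
      simp only [hq']
      refine Finset.sum_eq_zero fun i _ => ?_
      rw [hR.out v hvt i]
      simp
    have hq'Q : q' ∈ Qset M := by
      show castR q' ∈ M.Δ.Z
      refine Cx.mem_Z ?_ t ht ?_
      · intro v
        rw [hcast]
        exact h2 v
      · intro v hv
        apply hsup
        intro h
        apply hv
        unfold castR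
        rw [h]
        simp
    have hK : KQ c q = KQ c q' := by
      funext i
      have h3 := h1 i
      rw [← hcast] at h3
      have h4 : ((KQ c q' i : ℚ) : ℝ) = ((KQ c q i : ℚ) : ℝ) := by
        have h5 : ∀ p : M.V → ℚ, ((KQ c p i : ℚ) : ℝ) = KR c (castR p) i := by
          intro p
          unfold KQ KR castR
          push_cast
          rfl
        rw [h5, h5]
        exact h3
      exact_mod_cast h4.symm
    have hqq := hinj q hq q' hq'Q hK
    intro v hv
    apply hsup v
    rw [← hqq]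
    exact hv

end Pool.Agent.Work.MP_552024_lc.EE
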