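import Pool.Agent.Work.MP_552024_lc.PLS.Defin
import Pool.Agent.Work.MP_552024_lc.PLS.P_PlB
import Pool.Agent.Work.MP_552024_lc.C1
import Pool.Agent.Work.MP_552024_lc.C2

/-!
# Theorem EE: elementary embeddings into finitely presented abelian l-groups are onto

`j : G → H` elementary, `G` finitely generated by `g i` (`i : I` finite), `H` finitely presented. `M` a
model of `H` (`Mdl`, unimodular complex, chart `ev`) on which all `j (g i)` and a given `h : H` are linear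
(`S_linall`). `K z = (j (g i) at z)_i` is linear, `KR c` on real points, `KQ c` on rational points. The
image of `j` is the set of the functions `F o K`, `F` in `LP I`.
Every docstring is the complete proof; the items are independent of each other (other statements are
hypotheses). `prfB9 prfB7 : S_linall` is proved.
-/

set_option autoImplicit false

namespace Pool.Agent.Work.MP_552024_lc.EE

open Pool.Agent.MP552024 Pool.Agent.Work.MP_552024_lc.PLS

/-- the map `K` on real points -/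
def KR {V I : Type} [Fintype V] (c : I → V → ℤ) (z : V → ℝ) : I → ℝ :=
  fun i => ∑ v, (c i v : ℝ) * z v

/-- the map `K` on rational points -/
def KQ {V I : Type} [Fintype V] (c : I → V → ℤ) (q : V → ℚ) : I → ℚ :=
  fun i => ∑ v, (c i v : ℚ) * q v

/-- `T` is the set of the functions `F o K`, `F` in `LP I` -/
structure Img {H : Type} [AddCommGroup H] [Lattice H] (M : Mdl H) {I : Type} (c : I → M.V → ℤ)
    (T : Set H) : Prop where
  mem : ∀ x ∈ T, ∃ F ∈ LP I, ∀ z ∈ M.Δ.Z, M.ev x z = F (KR c z)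
  sur : ∀ F ∈ LP I, ∃ x ∈ T, ∀ z ∈ M.Δ.Z, M.ev x z = F (KR c z)

/-- `R` is an integral left inverse of `K` on the cone of `s` -/
structure LInv {V I : Type} [Fintype I] (c : I → V → ℤ) (s : Set V) (R : V → I → ℤ) : Prop where
  out : ∀ u ∉ s, ∀ i, R u i = 0
  one : ∀ u ∈ s, ∑ i, R u i * c i u = 1
  off : ∀ u ∈ s, ∀ v ∈ s, u ≠ v → ∑ i, R u i * c i v = 0

/-- the Tarski-Vaught property of `T` for formulas with one parameter -/
def TVp {H : Type} [AddCommGroup H] [Lattice H] [IsOrderedAddMonoid H] (T : Set H) : Prop :=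
  ∀ Q : ∀ K : OG, (Unit → K.K) → K.K → Prop,
    Dfn (fun K (v : Unit ⊕ Unit → K.K) => Q K (fun a => v (Sum.inl a)) (v (Sum.inr ()))) →
    ∀ g ∈ T, (∃ x : H, Q ⟨H⟩ (fun _ => g) x) → ∃ x ∈ T, Q ⟨H⟩ (fun _ => g) x

/-- [Rat] EASY. Positivity is seen at the rational points. Proof: `prfB9 prfB7` with one element: a
refinement `N` of `M` (`Ref.map` gives `T : N.V → ℝ ...` with `M.ev a (T z) = N.ev a z`) on which `a` is
linear with coefficients `d`. `T (pt i)` is a vector of integers (its coordinates are the values of the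
hats of `M`, `IsChart.hat`, `IsChart.int_pt`), hence `castR` of a point of `Qset M`: this is in the proof of
`PLS.Zset_le_iff` (file PLS/Zsets.lean), copy it. So `d i ≥ 0` and `Mdl.Lin.nonneg'`. -/
def StRat : Prop := ∀ (H : Type) [AddCommGroup H] [Lattice H] [IsOrderedAddMonoid H] (M : Mdl H)
  (a : H), (∀ q ∈ Qset M, 0 ≤ M.ev a (castR q)) → 0 ≤ a

/-- [Arc] EASY. Proof: `prfB9 prfB7` for `a`, `b` (index type `Bool`, as in the proof of
`PLS.Zset_le_iff`): refinement `N`, coefficients `ca, cb ≥ 0` (`Mdl.Lin.nonneg`); `cb i = 0` implies `ca i = 0`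
(`Zset_le_iff` and `prfD2a (prfD1 ..)`: `S_incL`). With `k = ∑ i, (ca i).toNat`: `ca i ≤ k * cb i` for all `i`
(integers), so `a ≤ k • b` (`Mdl.Lin.le`, `Mdl.Lin` of `k • b`: by induction on `k` or `IsChart.nsmul`). -/
def StArc : Prop := ∀ (H : Type) [AddCommGroup H] [Lattice H] [IsOrderedAddMonoid H] (M : Mdl H)
  (a b : H), 0 ≤ a → 0 ≤ b → Zset M b ⊆ Zset M a → ∃ k : ℕ, a ≤ k • b

/-- [TV] EASY. Proof: let `Q` be definable, `g = j g0`. `Dfn.ex` gives a formula `ψ` (free variable in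
`Unit`) with `ψ.Realize v ↔ ∃ x, Q K v x`; `j` is elementary
(`FirstOrder.Language.ElementaryEmbedding.map_formula`), so `G` satisfies `ψ` at `g0`: there is `x0 : G` with
`Q ⟨G⟩ (fun _ => g0) x0`; the formula `φ` of `Q` gives `Q ⟨H⟩ (fun _ => j g0) (j x0)` in the same way.
(`OG.str ⟨G⟩` is `str G` by definition.) -/
def StTV : Prop := ∀ (G H : Type) [AddCommGroup G] [Lattice G] [IsOrderedAddMonoid G]
  [AddCommGroup H] [Lattice H] [IsOrderedAddMonoid H]
  (j : @FirstOrder.Language.ElementaryEmbedding L2 G H (str G) (str H)),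
  TVp (Set.range j)

/-- [Hom] EASY. An elementary embedding is a homomorphism of lattice-ordered groups. Proof: `map_formula` for
the formulas of `Dfn.le_var`, `Dfn.add_var`, `DT.zero`, `DT.inf (DT.var _) (DT.var _)`; `-a` from `a + -a = 0`;
`a ⊔ b = a + b - (a ⊓ b)` (`inf_add_sup`). -/
def StHom : Prop := ∀ (G H : Type) [AddCommGroup G] [Lattice G] [IsOrderedAddMonoid G]
  [AddCommGroup H] [Lattice H] [IsOrderedAddMonoid H]
  (j : @FirstOrder.Language.ElementaryEmbedding L2 G H (str G) (str H)),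
  (∀ a b : G, j (a + b) = j a + j b) ∧ j 0 = 0 ∧ (∀ a : G, j (-a) = -j a) ∧
  (∀ a b : G, j (a ⊔ b) = j a ⊔ j b) ∧ (∀ a b : G, j (a ⊓ b) = j a ⊓ j b) ∧
  ∀ a b : G, j a ≤ j b ↔ a ≤ b

/-- [Im] EASY. Proof: the set of the `x` with `j x = F o K` for some `F` in `LP I` contains the `g i`
(`F` a coordinate, `M.Lin`), `0` and is closed under the operations (`IsChart.add`, `.neg`, `.sup`, `.inf`,
`LP_add`, ...), so it is everything. Conversely `LP_ind` over `F`: the coordinates are `j (g i)`, and the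
operations of `G` give the rest. -/
def StIm : Prop := ∀ (G H : Type) [AddCommGroup G] [Lattice G] [IsOrderedAddMonoid G]
  [AddCommGroup H] [Lattice H] [IsOrderedAddMonoid H] (j : G → H),
  (∀ a b : G, j (a + b) = j a + j b) → j 0 = 0 → (∀ a : G, j (-a) = -j a) →
  (∀ a b : G, j (a ⊔ b) = j a ⊔ j b) → (∀ a b : G, j (a ⊓ b) = j a ⊓ j b) →
  ∀ (I : Type) (g : I → G),
  (∀ T : Set G, (∀ i, g i ∈ T) → 0 ∈ T →
    (∀ a ∈ T, ∀ b ∈ T, a + b ∈ T ∧ -a ∈ T ∧ a ⊔ b ∈ T ∧ a ⊓ b ∈ T) → ∀ x, x ∈ T) →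
  ∀ (M : Mdl H) (c : I → M.V → ℤ), (∀ i, M.Lin (j (g i)) (c i)) → Img M c (Set.range j)

/-- [A] EASY. `K` has no zeros. Proof: `TVp` for `Q K v x := 0 ≤ x ∧ ∀ a, 0 ≤ a → Inc a x` (definable: `Dfn.inc`,
`Dfn.le`, `Dfn.all`, `Dfn.imp`; the parameter, `0 ∈ T`, is not used; `0 ∈ T` by `Img.sur` and `chart.ext`). In `H` the
sum of the hats `u` (`M.exists_lin (fun _ => 1)`) works: `Zset M u = {0}` and every `a` vanishes at `0`
(`PLS.Zset_le_iff`). So there is `x ∈ T`, `x = F o K`, with `0 ≤ x`, `Inc u x`, hence `Zset M x ⊆ Zset M u`,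
every zero of `x` in `Qset M` is `0`. `K q = 0` gives `F (K q) = F 0 = 0` (`LP_hom` with `r = 0`), so `q = 0`. -/
def StA : Prop := ∀ (H : Type) [AddCommGroup H] [Lattice H] [IsOrderedAddMonoid H] (M : Mdl H)
  (I : Type) (c : I → M.V → ℤ) (T : Set H), Img M c T → TVp T →
  ∀ q ∈ Qset M, KQ c q = 0 → q = 0

/-- [B] EASY-MEDIUM. `K` is injective. Proof: let `K x = K y = s`, `x ≠ y`; both are not zero by A, `s ≠ 0`. Let
`b ∈ LP I`, `b ≥ 0`, have the zero set `ray s` (`PLS.LPZ_of_pol (PLS.pol_ray hs)`), `g ∈ T` with `g = b o K`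
(`Img.sur`), `g ≥ 0`, `E := Zset M g = {q ∈ Qset M : K q ∈ ray s}`. `TVp` for the formula
`Q K v a := (0 ≤ a ∧ Inc (v ()) a) ∧ ¬ Inc a (v ()) ∧ ∃ w, 0 ≤ w ∧ ¬ Inc w a` (meaning, `Zset_le_iff`:
`Zset a ⊆ E`, `E` not contained in `Zset a`, `Zset a` has a point `/= 0`). In `H`: `a` with `Zset M a = ray x`
(`exists_Zset`, `pol_ray`; `ray x ⊆ Qset M`): `ray x ⊆ E`; `y ∈ E` is not in `ray x` (`y = r x` gives
`s = r s`, `r = 1`, `y = x`); `w = ` the sum of the hats. So there is `a = F o K ∈ T` with these properties.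
There is `q ∈ Zset a`, `q /= 0`; `K q = r s`, `r ≥ 0`, and `r /= 0` by A; `F (K q) = r F(s) = 0` (`LP_hom`), so
`F(s) = 0` and `a` vanishes on `E`, contradiction. -/
def StB : Prop := ∀ (H : Type) [AddCommGroup H] [Lattice H] [IsOrderedAddMonoid H] (M : Mdl H)
  (I : Type) [Fintype I] (c : I → M.V → ℤ) (T : Set H), Img M c T → TVp T →
  (∀ q ∈ Qset M, KQ c q = 0 → q = 0) →
  ∀ x ∈ Qset M, ∀ y ∈ Qset M, KQ c x = KQ c y → x = y

/-- [C] EASY-MEDIUM. `K x` integral implies `x` integral. Proof: `x = 0` is trivial. Let `x /= 0`, `s = K x /= 0`,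
`g ∈ T`, `g ≥ 0` with `Zset M g = {q ∈ Qset M : K q ∈ ray s} = ray x` (as in B; injectivity: `K q = r s = K (r x)`).
For `a ≥ 0`: `Inc a g` iff `a` vanishes at `x` (`Zset_le_iff`). `TVp` for
`Q K v a := 0 ≤ a ∧ ¬ Inc a (v ()) ∧ ∀ b, 0 ≤ b → Inc b (v ()) ∨ Inc ((a - b) ⊔ 0) (v ())`
(`(a - b) ⊔ 0` is `a - (a ⊓ b)`: `DT.sub`, `DT.inf`; you may write it in this form). Meaning: `a(x)` is the least
positive value at `x`. In `H` there is such an `a`: if `n > 0` is a common denominator of the `x v`, then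
`n a(x)` is an integer for every `a` (`IsChart.int` at `n x`), a hat is positive at `x`, take `a ≥ 0` with the least
positive `n a(x)` (`Nat.find` / well-foundedness). So there is `a = F o K ∈ T` with the same property; `λ = a(x) > 0`
is an integer by `LP_int`, as `K x` is integral. For a vertex `v` let `e` be its hat, `m = ⌊x v / λ⌋`,
`b = (e - m • a) ⊔ 0 ≥ 0`: `b(x) = x v - m λ ∈ [0, λ)`; the property of `a` gives `b(x) = 0` or `λ ≤ b(x)`, so
`x v = m λ` is an integer. -/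
def StC : Prop := ∀ (H : Type) [AddCommGroup H] [Lattice H] [IsOrderedAddMonoid H] (M : Mdl H)
  (I : Type) [Fintype I] (c : I → M.V → ℤ) (T : Set H), Img M c T → TVp T →
  (∀ q ∈ Qset M, KQ c q = 0 → q = 0) →
  (∀ x ∈ Qset M, ∀ y ∈ Qset M, KQ c x = KQ c y → x = y) →
  ∀ x ∈ Qset M, (∀ i, ∃ k : ℤ, KQ c x i = k) → ∀ v, ∃ k : ℤ, x v = k

/-- [Alg] EASY-MEDIUM (pure algebra). An integral left inverse. Proof: `φ : (S → ℤ) → (I → ℤ)`,
`φ n = ∑ u, n u • w u`. Injective: if `φ n = 0` then for every rational `t` the coefficients `t n_u` give `0`, so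
they are integers, `n = 0`. The quotient `(I → ℤ) ⧸ range φ` is torsion free: `m y = φ n`, `m /= 0`, gives
`y = ∑ (n u / m) w u`, so `n u / m` are integers and `y ∈ range φ`. It is finitely generated over the principal
ideal domain `ℤ`, hence free and projective; a section of the quotient map (`Module.projective_lifting_property`)
gives a projection onto `range φ`, and `φ` has a left inverse. -/
def StAlg : Prop := ∀ (S I : Type) [Fintype S] [Fintype I] (w : S → I → ℤ),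
  (∀ r : S → ℚ, (∀ i, ∃ k : ℤ, ∑ u, r u * (w u i : ℚ) = k) → ∀ u, ∃ k : ℤ, r u = k) →
  ∃ R : S → I → ℤ, (∀ u, ∑ i, R u i * w u i = 1) ∧ ∀ u v, u ≠ v → ∑ i, R u i * w v i = 0

/-- [R] EASY. Proof from Alg for `S = ↥s` (subtype), `w v i = c i v`: let `r : s → ℚ` with `∑ r v c i v` integral. Choose
a natural number `m` with `r v + m ≥ 0` for all `v ∈ s` (finite), `x v = r v + m` on `s`, `0` elsewhere:
`x ∈ Qset M` (`Cx.mem_Z` with the face `s`), `K x` is integral (`= ∑ r v c i v + m ∑ c i v`), so `x` is integral by the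
hypothesis and so are the `r v`. Extend `R` by `0` outside `s`. -/
def StR : Prop := ∀ (H : Type) [AddCommGroup H] [Lattice H] [IsOrderedAddMonoid H] (M : Mdl H)
  (I : Type) [Fintype I] (c : I → M.V → ℤ),
  (∀ x ∈ Qset M, (∀ i, ∃ k : ℤ, KQ c x i = k) → ∀ v, ∃ k : ℤ, x v = k) →
  ∀ s : Set M.V, M.Δ.face s → ∃ R : M.V → I → ℤ, LInv c s R

/-- [P] EASY-MEDIUM. Separation. Given the integral left inverse `R` on the face `t`, the function
`P(y) = ∑ i |(K R y) i - y i| + ∑ v max 0 (-(R y) v)` is in `LP I` (`LP_lin`, `LP_max`, `LP_sum`;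
`|a| = max a (-a)`), `(R y) v = ∑ i R v i y i`. Nonnegative. On the cone of `t`: `R (K z) = z`, so `P (K z) = 0`.
If `q ∈ Qset M` and `P (K q) = 0` then `K q = K (R K q)` and `R K q ≥ 0` is supported in `t` (`R u = 0` for
`u ∉ t`), so `R K q ∈ Qset M` and `q = R K q` by injectivity: `q` is supported in `t`. -/
def StP : Prop := ∀ (H : Type) [AddCommGroup H] [Lattice H] [IsOrderedAddMonoid H] (M : Mdl H)
  (I : Type) [Fintype I] (c : I → M.V → ℤ),
  (∀ x ∈ Qset M, ∀ y ∈ Qset M, KQ c x = KQ c y → x = y) →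
  ∀ t : Set M.V, M.Δ.face t → ∀ R : M.V → I → ℤ, LInv c t R →
    ∃ P ∈ LP I, (∀ y, 0 ≤ P y) ∧
      (∀ z ∈ M.Δ.Z, {v | z v ≠ 0} ⊆ t → P (KR c z) = 0) ∧
      ∀ q ∈ Qset M, P (KR c (castR q)) = 0 → {v | q v ≠ 0} ⊆ t

/-- [Pair] EASY-MEDIUM. Proof. `R_s`, `R_t` from the hypothesis; `L_s(y) = ∑ v, d v (R_s y) v`, an integral form on
`I → ℝ` with `L_s (K z) = h(z)` on the cone of `s` (`R_s K z = z` there), the same for `t`. `P` from StP for `t`.
Let `D, P' ∈ H` with `D = L_s o K - L_t o K`, `P' = P o K` (`M.chart.sur`, `LP_comp`) and `W ≥ 0` in `H` with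
`Zset M W = {q ∈ Qset M : q v = 0 for v ∉ s}` (`exists_Zset`, a closed set; or `W = ` the sum of the hats of the
`v ∉ s`). Then `Zset M (P' + W) ⊆ Zset M (D ⊔ 0)`: a common zero is supported in `s` and in `t`, where
`L_s o K = h = L_t o K`. Arc: `D ⊔ 0 ≤ k • (P' + W)`. `F = L_t + k P` (`LP_add`, `LP_nsmul`): on the cone of `t`
`F (K z) = h(z)`; on the cone of `s` (`W = 0`): `F (K z) ≥ L_t (K z) + D(z) = L_s (K z) = h(z)`. -/
def StPair : Prop := ∀ (H : Type) [AddCommGroup H] [Lattice H] [IsOrderedAddMonoid H] (M : Mdl H)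
  (I : Type) [Fintype I] (c : I → M.V → ℤ),
  (∀ x ∈ Qset M, ∀ y ∈ Qset M, KQ c x = KQ c y → x = y) →
  (∀ s : Set M.V, M.Δ.face s → ∃ R : M.V → I → ℤ, LInv c s R) →
  ∀ (h : H) (d : M.V → ℤ), M.Lin h d → ∀ s t : Set M.V, M.Δ.face s → M.Δ.face t →
    ∃ F ∈ LP I, (∀ z ∈ M.Δ.Z, {v | z v ≠ 0} ⊆ s → M.ev h z ≤ F (KR c z)) ∧
      ∀ z ∈ M.Δ.Z, {v | z v ≠ 0} ⊆ t → F (KR c z) ≤ M.ev h z

/-- [Asm] EASY. Proof: the faces are finitely many (`Set M.V` is finite) and `∅` is one. Choose the `F_(s,t)` and put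
`F = inf over t of (sup over s of F_(s,t))` (`Finset.sup'`, `Finset.inf'`; in `LP I` by induction). For `z ∈ Z` with
support `u` (a face): `F_(s,u)(K z) ≤ h(z)` for all `s`, so the infimum is `≤ h(z)`; for every `t`:
`sup_s F_(s,t)(K z) ≥ F_(u,t)(K z) ≥ h(z)`. -/
def StAsm : Prop := ∀ (V I : Type) [Fintype V] (Δ : Cx V) (K : (V → ℝ) → I → ℝ) (h : (V → ℝ) → ℝ),
  (∀ s t : Set V, Δ.face s → Δ.face t →
    ∃ F ∈ LP I, (∀ z ∈ Δ.Z, {v | z v ≠ 0} ⊆ s → h z ≤ F (K z)) ∧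
      ∀ z ∈ Δ.Z, {v | z v ≠ 0} ⊆ t → F (K z) ≤ h z) →
  ∃ F ∈ LP I, ∀ z ∈ Δ.Z, h z = F (K z)

/-- [Fin] the theorem: elementary embeddings into finitely presented groups are onto -/
def StFin : Prop := ∀ (G H : Type) [AddCommGroup G] [Lattice G] [IsOrderedAddMonoid G]
  [AddCommGroup H] [Lattice H] [IsOrderedAddMonoid H],
  (∃ S : Set G, S.Finite ∧ ∀ T : Set G, S ⊆ T → 0 ∈ T →
    (∀ a ∈ T, ∀ b ∈ T, a + b ∈ T ∧ -a ∈ T ∧ a ⊔ b ∈ T ∧ a ⊓ b ∈ T) → T = Set.univ) →
  ∀ (n : ℕ) (f : (Fin n → ℝ) → ℝ), f ∈ LP (Fin n) → ∀ ψ : ((Fin n → ℝ) → ℝ) → H, Pres n f H ψ →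
  ∀ j : @FirstOrder.Language.ElementaryEmbedding L2 G H (str G) (str H),
    Function.Surjective j

end Pool.Agent.Work.MP_552024_lc.EE
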