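import Pool.Agent.Work.MP_552024_lc.EE.Stmts
import Pool.Agent.Work.MP_552024_lc.PLS.Dimn

/-!
# Theorem EE, second part: types of short tuples

Every finitely presented abelian l-group `G` of dimension at most `d` contains a `d`-tuple `g` whose complete
type determines the pair `(G, g)` among all finitely presented ones. Proof: `g` is chosen such that
`K = (g_1, ..., g_d)` is injective on the cones of a model `M` of `G` (Vdm). The hats `a v` of `M` (which generate
`G`: Hats) satisfy an equation over `g` with finitely many solutions (Can, Sol, Def), so the type of `a` over `g`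
is isolated by a formula, and if `(H, h)` has the type of `(G, g)`, then there is `b` in `H` such that `(b, h)` has
the type of `(a, g)` (Min). This gives an elementary embedding of `G` in `H` with `g i ↦ h i` (Emb), which is onto
by the first part.
Every docstring is the complete proof; the items are independent of each other.
-/

set_option autoImplicit false

namespace Pool.Agent.Work.MP_552024_lc.EE

open Pool.Agent.MP552024 Pool.Agent.Work.MP_552024_lc.PLS

/-- `K` is injective on the cones of `Δ` -/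
def Indep {V I : Type} [Fintype V] (Δ : Cx V) (c : I → V → ℤ) : Prop :=
  ∀ s : Set V, Δ.face s → ∀ r : V → ℚ, (∀ v ∉ s, r v = 0) → KQ c r = 0 → r = 0

/-- the family `a` generates `G` as a lattice-ordered group -/
def Gen {A G : Type} [AddCommGroup G] [Lattice G] (a : A → G) : Prop :=
  ∀ T : Set G, (∀ i, a i ∈ T) → 0 ∈ T →
    (∀ x ∈ T, ∀ y ∈ T, x + y ∈ T ∧ -x ∈ T ∧ x ⊔ y ∈ T ∧ x ⊓ y ∈ T) → ∀ x, x ∈ T

/-- `g` and `h` have the same type -/
def SameT {I : Type} (G H : OG) (g : I → G.K) (h : I → H.K) : Prop :=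
  ∀ P : ∀ K : OG, (I → K.K) → Prop, Dfn P → (P G g ↔ P H h)

/-- the equation: the infimum over `s` of the sums over `a` of `|D x_a - ∑ L_(s,a,i) y_i|` is zero -/
def Alg2 {S A I : Type} [Fintype A] [Fintype I] (D : ℕ) (L : S → A → I → ℤ) (K : OG)
    (v : A ⊕ I → K.K) : Prop :=
  ∀ w : K.K, (∀ s, w ≤ ∑ a, |D • v (Sum.inl a) - ∑ i, L s a i • v (Sum.inr i)|) → w ≤ 0

/-- [Vdm] EASY. Proof: number the vertices by different integers `t v` (`Fintype.equivFin`), `c i v = (t v) ^ i`. Let
`r` be supported in the face `s`, `∑ v, (t v) ^ i r v = 0` for `i < d`. For `v0` in `s` the polynomial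
`p = ∏ (X - t v)` over `v ∈ s`, `v ≠ v0`, has degree `card s - 1 < d` (if `s` is empty there is nothing to prove), so
`0 = ∑ v, r v p(t v) = r v0 p(t v0)` and `p(t v0) ≠ 0`. -/
def StVdm : Prop := ∀ (V : Type) [Fintype V] (Δ : Cx V) (d : ℕ),
  (∀ s : Finset V, Δ.face (s : Set V) → s.card ≤ d) → ∃ c : Fin d → V → ℤ, Indep Δ c

/-- [Can] EASY-MEDIUM (linear algebra). Proof: let `s` be a face. The vectors `w v = (c i v)_i` in `I → ℚ`,
`v ∈ s`, are linearly independent (`Indep`), so there is a linear form `ℓ` on `I → ℚ` with `ℓ (w v) = e a v` for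
all `v ∈ s` (a linear left inverse, `LinearMap.exists_leftInverse_of_injective` for `(s → ℚ) → (I → ℚ)`). Its
coordinates are rational numbers; `D` is the product of all the denominators (finitely many `s`, `a`, `i`). -/
def StCan : Prop := ∀ (V I A : Type) [Fintype V] [Fintype I] [Fintype A] (Δ : Cx V) (c : I → V → ℤ),
  Indep Δ c → ∀ e : A → V → ℤ, ∃ D : ℕ, 0 < D ∧ ∃ L : Set V → A → I → ℤ,
    ∀ s, Δ.face s → ∀ a, ∀ v ∈ s, (D : ℤ) * e a v = ∑ i, L s a i * c i v

/-- [Hats] EASY. Proof: let `T` be as in `Gen`. `LP_ind`: for every `F ∈ LP M.V` there is `y ∈ T` with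
`M.ev y z = F z` on `M.Δ.Z` (`IsChart.add`, `.neg`, `.sup`, `.inf`, `.zero`). For `x : G` `IsChart.mem` gives `F`,
and `y = x` by `IsChart.ext`. -/
def StHats : Prop := ∀ (G : Type) [AddCommGroup G] [Lattice G] [IsOrderedAddMonoid G] (M : Mdl G)
  (a : M.V → G), (∀ v, ∀ z ∈ M.Δ.Z, M.ev (a v) z = z v) → Gen a

/-- [Def] EASY-MEDIUM. Proof. Definable: `DT.add`, `DT.sub`, `DT.inf`, `DT.sum`, `DT.zero` of H1.lean; multiples by
naturals and integers by induction, `x ⊔ y = x + y - (x ⊓ y)`, `|x| = x ⊔ -x`. Meaning: let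
`u s = ∑ a, |D • v (inl a) - ∑ i, L s a i • v (inr i)|`; if at every `z` some `u s` vanishes, then `w ≤ u s` for all `s`
gives `w z ≤ 0` (`IsChart.le_iff`); conversely take `w = ` the infimum of the `u s` (`Finset.univ.inf'`,
`Nonempty S`), its value at `z` is the minimum of the values of the `u s`, all `≥ 0`. A sum of absolute values is
zero iff all terms are. -/
def StDef : Prop := ∀ (S A I : Type) [Fintype S] [Nonempty S] [Fintype A] [Fintype I] (D : ℕ)
  (L : S → A → I → ℤ), Dfn (Alg2 D L) ∧
  ∀ (K : OG) (M : Mdl K.K) (v : A ⊕ I → K.K), Alg2 D L K v ↔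
    ∀ z ∈ M.Δ.Z, ∃ s, ∀ a, (D : ℝ) * M.ev (v (Sum.inl a)) z =
      ∑ i, (L s a i : ℝ) * M.ev (v (Sum.inr i)) z

/-- [Sol] MEDIUM. Finitely many solutions. Proof. `prfB9 prfB7` for the family of all `u = y s a - y s' a` and all
`u ⊔ 0`: a refinement `N` (`Ref.map` gives `T`; it is enough to prove the statement for `N`: for `z ∈ N.Δ.Z` use the
hypothesis at `T z`) on which all these are linear. If `u` and `u ⊔ 0` are linear then on a face the coefficients
of `u` have no opposite signs (at `pt i + pt j`: `max (c i + c j) 0 = max (c i) 0 + max (c j) 0`). Let `τ` be a face,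
`O = {z : z v > 0 for v ∈ τ, z v = 0 for v ∉ τ}`, a convex set (so `IsPreconnected`). Two indices `s, s'` with
`y s a z = y s' a z` for all `a` at one `z ∈ O` agree on all of `O`: `∑ v ∈ τ, d v z v = 0` with all `d v` of one weak
sign gives `d v = 0`. Let `x` be a solution; `C s = {z ∈ O : D x_a z = y s a z for all a}` is closed in `O`
(`LP_cont`), two of the `C s` are equal or disjoint, and they cover `O`; so `C s0` is open and closed in `O` for
every `s0`, and `C s0 = O` for one `s0 =: σ_x(τ)`. The map `x ↦ σ_x : Set N.V → S` is injective on solutions (if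
`σ_x = σ_x'` then `D x_a = D x'_a` at every point of `N.Δ.Z`, which is in the `O` of its support; `D > 0`;
`IsChart.ext`), and `Set N.V → S` is finite. -/
def StSol : Prop := ∀ (G : Type) [AddCommGroup G] [Lattice G] [IsOrderedAddMonoid G] (M : Mdl G)
  (S A : Type) [Finite S] [Finite A] (D : ℕ), 0 < D → ∀ y : S → A → G,
  {x : A → G | ∀ z ∈ M.Δ.Z, ∃ s, ∀ a, (D : ℝ) * M.ev (x a) z = M.ev (y s a) z}.Finite

/-- [Min] EASY-MEDIUM (model theory). Proof: among the definable `P` with `P (a, g)` and finitely many solutions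
`x` of `P (x, g)` in `G` take one with the least number `n` of solutions (`Set.ncard`, `Nat.find` or
well-foundedness). `∃ x, P (x, v)` is definable in `v` (`Formula.iExs A`, as in `Dfn.exs` of H1.lean, with the
remaining variables `I`), true at `g`, so true at `h`: let `P (b, h)`. Let `Q` be definable with `Q (a, g)`. Then
`P ∧ Q` has the solution `a` and is again such a formula, its solutions are among those of `P`, so by minimality
all solutions of `P` in `G` satisfy `Q`: `∀ x, P (x, v) → Q (x, v)` holds at `g` and hence at `h`, so `Q (b, h)`. If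
`Q (a, g)` fails use `¬ Q`. -/
def StMin : Prop := ∀ (A I : Type) [Finite A] [Finite I] (G H : OG) (a : A → G.K) (g : I → G.K)
  (h : I → H.K), SameT G H g h →
  ∀ P : ∀ K : OG, (A ⊕ I → K.K) → Prop, Dfn P → P G (Sum.elim a g) →
    {x : A → G.K | P G (Sum.elim x g)}.Finite →
    ∃ b : A → H.K, SameT G H (Sum.elim a g) (Sum.elim b h)

/-- [Emb] EASY-MEDIUM (model theory). Proof: every `x : G` is `τ G a` for an operation `τ` with `DT τ` (`Gen` for the
set of these `x`: `DT.var`, `DT.zero`, `DT.add`, `DT.sub`, `DT.inf`, and `⊔` by `x ⊔ y = x + y - (x ⊓ y)`); choose `τ_x`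
and put `j x = τ_x H b`. For a formula `φ` with variables `Fin n` and `x : Fin n → G` the predicate
`K, v ↦ φ.Realize (fun k => τ_(x k) K v)` is definable (substitution: `∃ y : Fin n → K, (∀ k, y k = τ_(x k) K v) ∧
φ.Realize y`, `Formula.iExs`; or `Dfn.bind` `n` times), so it holds at `a` iff it holds at `b`: this is
`map_formula'`. `j (a i) = b i`: the predicate `v i = τ_(a i) K v` is definable and true at `a`. -/
def StEmb : Prop := ∀ (G H : Type) [AddCommGroup G] [Lattice G] [IsOrderedAddMonoid G]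
  [AddCommGroup H] [Lattice H] [IsOrderedAddMonoid H] (A : Type) [Finite A] (a : A → G) (b : A → H),
  Gen a → SameT ⟨G⟩ ⟨H⟩ a b →
  ∃ j : @FirstOrder.Language.ElementaryEmbedding L2 G H (str G) (str H), ∀ i, j (a i) = b i

/-- [N] the theorem on types of short tuples -/
def StN : Prop := ∀ (d : ℕ) (G : Type) [AddCommGroup G] [Lattice G] [IsOrderedAddMonoid G]
  (n : ℕ) (f : (Fin n → ℝ) → ℝ), f ∈ LP (Fin n) →
  (∃ F : Set (Submodule ℝ (Fin n → ℝ)), F.Finite ∧ (∀ W ∈ F, Module.finrank ℝ W ≤ d) ∧
    ∀ x, f x = 0 → ∃ W ∈ F, x ∈ W) →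
  ∀ ψ : ((Fin n → ℝ) → ℝ) → G, Pres n f G ψ →
  ∃ g : Fin d → G, ∀ (H : Type) [AddCommGroup H] [Lattice H] [IsOrderedAddMonoid H]
    (m : ℕ) (f' : (Fin m → ℝ) → ℝ), f' ∈ LP (Fin m) →
    ∀ ψ' : ((Fin m → ℝ) → ℝ) → H, Pres m f' H ψ' →
    ∀ h : Fin d → H,
      (∀ φ : L2.Formula (Fin d), @FirstOrder.Language.Formula.Realize L2 G (str G) _ φ g ↔
        @FirstOrder.Language.Formula.Realize L2 H (str H) _ φ h) →
      ∃ e : G ≃+ H, (∀ i, e (g i) = h i) ∧ ∀ a b : G, e a ≤ e b ↔ a ≤ b

end Pool.Agent.Work.MP_552024_lc.EE
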